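import Mathlib
import Pool.Agent.H556.FG.Core
import Pool.Agent.H556.RT.Trans

/-!
# Common divisors of `2 ^ e + σ` and short sums of `S`-units, germs
-/

set_option autoImplicit false

namespace Pool.Agent.H556.DV

open Filter Topology Pool.Agent.TH932.Germs Pool.Agent.TH551.SU Pool.Agent.Y724.Vj
open Pool.Agent.TH551.SU.SUI MvPolynomial Pool.Agent.H556.FG
open Pool.Agent.H556.RT (LT LT_tendsto LT_nonneg exp_LT)

/-- the germ of `σ 2 ^ e` is not negligible -/
lemma pow_not_mem_KK {e : ℕ → ℕ} (he : Tendsto e atTop atTop) {σ : ℤ} (hσ : σ = 1 ∨ σ = -1) :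
    gm (fun n => (σ : ℚ) * (2 : ℚ) ^ e n) ∉ KK (LT e) (LT_tendsto he) := by
  intro h
  rw [mem_KK_iff] at h
  have h1 := h.1 (1 / 2) (by norm_num)
  have h2 : ∀ᶠ n in (UU : Filter ℕ), (8 : ℝ) ≤ LT e n :=
    ev_of_atTop ((LT_tendsto he).eventually_ge_atTop 8)
  obtain ⟨n, hn1, hn2⟩ := (h1.and h2).exists
  have h3 : ((σ : ℚ) * (2 : ℚ) ^ e n).num = σ * 2 ^ e n := by
    have : ((σ : ℚ) * (2 : ℚ) ^ e n) = ((σ * 2 ^ e n : ℤ) : ℚ) := by push_cast; rfl
    rw [this, Rat.num_intCast]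
  simp only [h3] at hn1
  have hs : |(σ : ℝ)| = 1 := by rcases hσ with rfl | rfl <;> norm_num
  push_cast at hn1
  rw [abs_mul, hs, one_mul, abs_of_pos (by positivity), ← exp_LT] at hn1
  have h6 : Real.exp (LT e n) = Real.exp (1 / 2 * LT e n) * Real.exp (1 / 2 * LT e n) := by
    rw [← Real.exp_add]; ring_nf
  have h7 := Real.add_one_le_exp (1 / 2 * LT e n)
  nlinarith

theorem core {s : ℕ} (b : Fin s → ℕ) (hb : ∀ v, (b v).Prime) (hbi : Function.Injective b)
    (v2 : Fin s) (hv2 : b v2 = 2) {e : ℕ → ℕ} (he : Tendsto e atTop atTop) {σ : ℤ}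
    (hσ : σ = 1 ∨ σ = -1)
    (hpr : ∀ l : ℕ, l.Prime → (σ = 1 → l ≠ 2) → ∀ᶠ n in (UU : Filter ℕ), ¬ l ∣ e n)
    (hfour : σ = 1 → ∀ᶠ n in (UU : Filter ℕ), ¬ 4 ∣ e n + 2)
    (N : ℕ → ℕ) (hN0 : ∀ n, N n ≠ 0) (hN : ∀ n, (N n : ℤ) = 2 ^ e n + σ)
    (hcop : ∀ n v, Nat.Coprime (N n) (b v)) {r : ℕ} (c : Fin r → ℕ → ℤ)
    (u : Fin r → ℕ → ℚ) (hu : ∀ i n, IsSU b (u i n)) (huB : ∀ i, Bd (LT e) (gm (u i)))
    (hc : ∀ i, Negl (LT e) (c i)) (D : ℕ → ℕ) (hDF : ∀ n, D n ∣ N n)
    (hDG : ∀ n, (D n : ℤ) ∣ (∑ i, (c i n : ℚ) * u i n).num)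
    (hNF : ∀ n, ¬ (N n : ℤ) ∣ (∑ i, (c i n : ℚ) * u i n).num) {δ : ℝ} (hδ : 0 < δ)
    (hD : ∀ n, Real.exp (δ * LT e n) ≤ D n) : False := by
  classical
  have hL : Tendsto (LT e) atTop atTop := LT_tendsto he
  set L := LT e with hLdef
  set β : ℕ := ∏ v, b v with hβ
  have hσ2 : σ * σ = 1 := by rcases hσ with rfl | rfl <;> norm_num
  have hσq : (σ : ℚ) * σ = 1 := by exact_mod_cast hσ2
  have hD0 : ∀ n, D n ≠ 0 := fun n h => by
    have := hDF n
    rw [h, zero_dvd_iff] at this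
    exact hN0 n this
  have hNle : ∀ n, (N n : ℝ) ≤ 2 ^ e n + 1 := by
    intro n
    have h1 : ((N n : ℤ) : ℝ) = ((2 ^ e n + σ : ℤ) : ℝ) := by rw [hN n]
    push_cast at h1
    rw [h1]
    rcases hσ with rfl | rfl <;> norm_num
  -- the power of two
  set Z : ℕ → ℚ := fun n => (σ : ℚ) * 2 ^ e n with hZ
  have hZsu : ∀ n, IsSU b (Z n) := by
    intro n
    refine ⟨σ, fun v => if v = v2 then ((e n : ℕ) : ℤ) else 0, hσ, ?_⟩
    rw [Finset.prod_eq_single v2]
    · simp only [if_true]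
      rw [hv2, zpow_natCast]
      push_cast
      rfl
    · intro v _ hv
      simp only [if_neg hv]
      rw [zpow_zero]
    · intro h
      exact absurd (Finset.mem_univ _) h
  have hsabs : |(σ : ℝ)| = 1 := by rcases hσ with rfl | rfl <;> norm_num
  have hZB : Bd L (gm Z) := by
    refine ⟨fun n => σ * 2 ^ e n, fun _ => 1, 1, ?_, ?_, ?_, ?_⟩
    · refine Eventually.of_forall fun n => ?_
      push_cast
      rw [one_mul, hLdef, exp_LT, abs_mul, hsabs, one_mul, abs_of_pos (by positivity)]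
    · refine Eventually.of_forall fun n => ?_
      push_cast
      rw [abs_one, one_mul]
      exact Real.one_le_exp (LT_nonneg e n)
    · exact Eventually.of_forall fun n => one_ne_zero
    · congr 1
      funext n
      push_cast
      rw [div_one]
  obtain ⟨k, T, j, E0, κ0, x, κ, hE0, hT, hTB, hκ0, hκ0K, hZT, hκ, hκK, huT, hind⟩ :=
    exists_T b hb hL u hu huB Z hZsu hZB (pow_not_mem_KK he hσ)
  have hTne : ∀ l, gm (T l) ≠ 0 := fun l => gsu_ne_zero hb ⟨T l, rfl, hT l⟩
  have hκ0ne : gm κ0 ≠ 0 := gsu_ne_zero hb ⟨κ0, rfl, hκ0⟩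
  have halg := alg_indep b hb hbi hL T hT hind
  -- the two polynomials
  set k0 : KK L hL := ⟨gm κ0, hκ0K⟩ with hk0
  have hcK : ∀ i, gm (fun n => (c i n : ℚ)) ∈ KK L hL := by
    intro i
    refine ⟨c i, fun _ => 1, hc i, Negl.one hL, by simp, ?_⟩
    congr 1
    funext n
    push_cast
    rw [div_one]
  set co : Fin r → KK L hL := fun i => ⟨_, mul_mem (hcK i) (hκK i)⟩ with hco
  set h : Fin k → ℕ := fun l => ∑ i, (x i l).natAbs with hh
  set f : MvPolynomial (Fin k) (KK L hL) := 1 + C k0 * X j ^ E0 with hf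
  set E : Fin r → (Fin k →₀ ℕ) := fun i =>
    Finsupp.equivFunOnFinite.symm (fun l => ((h l : ℤ) + x i l).toNat) with hE
  set g : MvPolynomial (Fin k) (KK L hL) := ∑ i, monomial (E i) (co i) with hg
  set TT : GG := ∏ l, gm (T l) ^ (h l) with hTT
  have hTT0 : TT ≠ 0 := Finset.prod_ne_zero_iff.2 fun l _ => pow_ne_zero _ (hTne l)
  have hNq : ∀ n, (N n : ℚ) = 2 ^ e n + σ := fun n => by exact_mod_cast hN n
  have hfT : aeval (fun l => gm (T l)) f = gm (fun n => (σ : ℚ) * (N n : ℚ)) := by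
    rw [hf, map_add, map_one, map_mul, map_pow, aeval_X, aeval_C]
    have h1 : algebraMap (KK L hL) GG k0 = gm κ0 := rfl
    rw [h1, ← hZT, ← gm_one, gm_add]
    congr 1
    funext n
    rw [hNq, hZ, mul_add, hσq]
    ring
  have hsum : gm (fun n => ∑ i, (c i n : ℚ) * u i n) =
      ∑ i, gm (fun n => (c i n : ℚ)) * gm (u i) := by
    rw [gm_sum']
    rfl
  have hgT : aeval (fun l => gm (T l)) g = TT * gm (fun n => ∑ i, (c i n : ℚ) * u i n) := by
    rw [hsum, hg, map_sum, Finset.mul_sum]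
    refine Finset.sum_congr rfl fun i _ => ?_
    rw [aeval_monomial, huT i, Finsupp.prod_fintype _ _ (fun l => pow_zero _)]
    have h1 : algebraMap (KK L hL) GG (co i) = gm (fun n => (c i n : ℚ)) * gm (κ i) := rfl
    rw [h1]
    have h2 : ∏ l, gm (T l) ^ (E i l) = TT * ∏ l, gm (T l) ^ (x i l) := by
      rw [hTT, ← Finset.prod_mul_distrib]
      refine Finset.prod_congr rfl fun l _ => ?_
      have h4 : E i l = ((h l : ℤ) + x i l).toNat := rfl
      rw [h4, ← zpow_natCast, ← zpow_natCast, ← zpow_add₀ (hTne l)]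
      congr 1
      rw [Int.toNat_of_nonneg]
      have h3 : (x i l).natAbs ≤ h l :=
        Finset.single_le_sum (f := fun i => (x i l).natAbs) (fun _ _ => Nat.zero_le _)
          (Finset.mem_univ i)
      omega
    rw [h2]
    ring
  -- irreducibility
  have hZw : ∀ w : GG, ∀ p : ℕ, p.Prime → gm Z ≠ -w ^ p := by
    intro w p hp hw
    obtain ⟨ω, rfl⟩ := gm_surj w
    rw [gm_pow, gm_neg, gm_eq] at hw
    rcases hσ with hs | hs
    · rcases hp.eq_two_or_odd' with rfl | hodd
      · obtain ⟨n, hn⟩ := hw.exists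
        have hpos : (0 : ℚ) < Z n := by rw [hZ, hs]; simp only [Int.cast_one, one_mul]; positivity
        nlinarith [sq_nonneg (ω n)]
      · have h2 : p ≠ 2 := by
          rintro rfl
          exact absurd hodd (by decide)
        obtain ⟨n, hn, hn2⟩ := (hw.and (hpr p hp (fun _ => h2))).exists
        rw [← hodd.neg_pow, hZ, hs] at hn
        simp only [Int.cast_one, one_mul] at hn
        exact hn2 (dvd_of_pow_eq hp.ne_zero hn.symm)
    · obtain ⟨n, hn, hn2⟩ := (hw.and (hpr p hp (fun h => by rw [hs] at h; norm_num at h))).exists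
      rw [hZ, hs] at hn
      simp only [Int.cast_neg, Int.cast_one, neg_one_mul, neg_inj] at hn
      exact hn2 (dvd_of_pow_eq hp.ne_zero hn.symm)
  have hfirr : Irreducible f := by
    apply irreducible_one_add j hE0
    · intro h0
      exact hκ0ne (congrArg Subtype.val h0)
    · intro p hp hpe c' hc'
      obtain ⟨e', rfl⟩ := hpe
      have h1 : gm κ0 * (c' : GG) ^ p = -1 := congrArg Subtype.val hc'
      have hc0 : (c' : GG) ≠ 0 := by
        intro h2
        rw [h2, zero_pow hp.ne_zero, mul_zero] at h1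
        exact absurd h1.symm (neg_ne_zero.2 one_ne_zero)
      apply hZw (gm (T j) ^ e' / (c' : GG)) p hp
      rw [hZT, div_pow, ← pow_mul, mul_comm e' p, ← neg_div, eq_div_iff (pow_ne_zero _ hc0)]
      linear_combination gm (T j) ^ (p * e') * h1
    · intro h4 c' hc'
      obtain ⟨e', rfl⟩ := h4
      have h1 : gm κ0 * (4 * (c' : GG) ^ 4) = 1 := by
        have := congrArg Subtype.val hc'
        exact this
      have hc0 : (c' : GG) ≠ 0 := by
        intro h2
        rw [h2, zero_pow (by norm_num), mul_zero, mul_zero] at h1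
        exact zero_ne_one h1
      have h2 : gm Z * 4 = (gm (T j) ^ e' / (c' : GG)) ^ 4 := by
        rw [hZT, div_pow, ← pow_mul, mul_comm e' 4, eq_div_iff (pow_ne_zero _ hc0)]
        linear_combination gm (T j) ^ (4 * e') * h1
      obtain ⟨ω, hω⟩ := gm_surj (gm (T j) ^ e' / (c' : GG))
      have h3 : gm (fun _ => (4 : ℚ)) = (4 : GG) := rfl
      rw [← hω, ← h3, gm_mul, gm_pow, gm_eq] at h2
      rcases hσ with hs | hs
      · obtain ⟨n, hn, hn2⟩ := (h2.and (hfour hs)).exists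
        have h5 : (2 : ℚ) ^ (e n + 2) = Z n * 4 := by
          rw [hZ, hs, pow_add]
          norm_num
        rw [← h5] at hn
        exact hn2 (dvd_of_pow_eq (by norm_num) hn.symm)
      · obtain ⟨n, hn⟩ := h2.exists
        have hneg : Z n * 4 < 0 := by
          rw [hZ, hs]
          simp only [Int.cast_neg, Int.cast_one]
          have : (0 : ℚ) < 2 ^ e n := by positivity
          linarith
        have hpos : 0 ≤ (ω n) ^ 4 := by positivity
        linarith
  -- divisibility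
  have hD1 : ∀ n, D n ≤ N n := fun n => Nat.le_of_dvd (Nat.pos_of_ne_zero (hN0 n)) (hDF n)
  have hSgG : Sg L β (gm (fun n => ∑ i, (c i n : ℚ) * u i n)) := by
    rw [hsum]
    refine Sg.sum hL _ _ fun i _ => (Sg.int hL (c i)).mul ?_
    exact Sg.of_su b hb hbi hL (hu i) (huB i)
  have hdvd : f ∣ g := by
    by_contra hnd
    have hrel : IsRelPrime f g := hfirr.isRelPrime_iff_not_dvd.2 hnd
    have hg0 : g ≠ 0 := by
      intro h0
      apply hnd
      rw [h0]
      exact dvd_zero _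
    have hneg := gcd_germ b hb hbi hL T hT hTB halg f g hfirr.ne_zero hg0 hrel D hD0
      (fun n v => Nat.Coprime.coprime_dvd_left (hDF n) (hcop n v)) 2
      (by
        filter_upwards [ev_of_atTop (hL.eventually_ge_atTop 1)] with n hn
        have h1 : (D n : ℝ) ≤ N n := by exact_mod_cast hD1 n
        have h2 := hNle n
        rw [← exp_LT] at h2
        have h3 : Real.exp (2 * L n) = Real.exp (L n) * Real.exp (L n) := by
          rw [← Real.exp_add]; ring_nf
        have h4 : (2 : ℝ) ≤ Real.exp (L n) := by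
          have := Real.add_one_le_exp (L n)
          linarith
        have h5 : LT e n = L n := rfl
        rw [h5] at h2
        rw [h3]
        nlinarith)
      (by
        rw [hfT, gm_mul]
        have h1 : (fun n => 1 / (D n : ℚ) * ((σ : ℚ) * (N n : ℚ))) =
            fun n => (((σ * (N n / D n : ℕ) : ℤ)) : ℚ) := by
          funext n
          obtain ⟨w, hw⟩ := hDF n
          have h2 : (D n : ℚ) ≠ 0 := by exact_mod_cast hD0 n
          rw [hw, Nat.mul_div_cancel_left _ (Nat.pos_of_ne_zero (hD0 n))]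
          push_cast
          field_simp
        rw [h1]
        exact Sg.int hL _)
      (by
        rw [hgT, mul_left_comm]
        refine Sg.mul (Sg.prod hL _ _ fun l _ => ?_) (sg_div hSgG D hD0 hDG)
        exact (Sg.of_su b hb hbi hL (hT l) (hTB l)).pow hL _)
    have h1 := hneg (δ / 2) (by positivity)
    obtain ⟨n, hn1, hn2⟩ := (h1.and (ev_of_atTop (hL.eventually_ge_atTop 1))).exists
    have h2 := hD n
    rw [Int.cast_natCast, abs_of_nonneg (Nat.cast_nonneg _)] at hn1
    have h3 := Real.exp_le_exp.1 (h2.trans hn1)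
    nlinarith
  obtain ⟨q, hq⟩ := hdvd
  have hqR := coeff_mem_of_mul ((IR β).comap (algebraMap (KK L hL) GG)) j hE0 (κ := k0)
    (mem_IR_su hb hκ0) q g hq.symm (by
      intro d
      rw [hg, coeff_sum]
      refine sum_mem fun i _ => ?_
      rw [coeff_monomial]
      split_ifs with h1
      · change algebraMap (KK L hL) GG (co i) ∈ IR β
        exact mul_mem (mem_IR_int β (c i)) (mem_IR_su hb (hκ i))
      · exact zero_mem _)
  have hqT : aeval (fun l => gm (T l)) q ∈ IR β := by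
    rw [aeval_def, eval₂_eq']
    refine sum_mem fun d _ => mul_mem (hqR d) (prod_mem fun l _ => pow_mem (mem_IR_su hb (hT l)) _)
  have hTTinv : TT⁻¹ ∈ IR β := by
    rw [hTT, ← Finset.prod_inv_distrib]
    refine prod_mem fun l _ => ?_
    rw [← inv_pow, gm_inv]
    exact pow_mem (mem_IR_su hb fun n => isSU_inv (hT l n)) _
  have hσ0 : (σ : ℚ) ≠ 0 := by
    intro h0
    rw [h0, zero_mul] at hσq
    exact zero_ne_one hσq
  have hFne : gm (fun n => (σ : ℚ) * (N n : ℚ)) ≠ 0 := by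
    rw [gm_ne_zero]
    exact Eventually.of_forall fun n => mul_ne_zero hσ0 (by exact_mod_cast hN0 n)
  have hfin : gm (fun n => ∑ i, (c i n : ℚ) * u i n) * (gm (fun n => (σ : ℚ) * (N n : ℚ)))⁻¹ ∈
      IR β := by
    have h1 : gm (fun n => ∑ i, (c i n : ℚ) * u i n) * (gm (fun n => (σ : ℚ) * (N n : ℚ)))⁻¹ =
        TT⁻¹ * aeval (fun l => gm (T l)) q := by
      rw [hq, map_mul, hfT] at hgT
      field_simp
      rw [hgT, mul_comm]
    rw [h1]
    exact mul_mem hTTinv hqT
  obtain ⟨a, ha, ha'⟩ := hfin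
  rw [gm_inv, gm_mul, gm_eq] at ha
  obtain ⟨n, hn⟩ := ha.exists
  obtain ⟨k', z, hz⟩ := ha' n
  apply hNF n
  set G : ℚ := ∑ i, (c i n : ℚ) * u i n with hG
  have hFq : (N n : ℚ) ≠ 0 := by exact_mod_cast hN0 n
  have h1 : (β : ℚ) ^ k' * G = z * (σ * N n) := by
    rw [← hz, ← hn]
    field_simp
  have h2 : (β : ℤ) ^ k' * G.num = N n * (z * σ * G.den) := by
    have h3 : G * G.den = G.num := Rat.mul_den_eq_num G
    have h4 : ((β : ℤ) ^ k' * G.num : ℤ) = ((N n * (z * σ * G.den) : ℤ) : ℚ) := by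
      push_cast
      rw [← h3]
      linear_combination (G.den : ℚ) * h1
    exact_mod_cast h4
  have h5 : IsCoprime (N n : ℤ) ((β : ℤ) ^ k') := by
    apply IsCoprime.pow_right
    rw [Nat.isCoprime_iff_coprime, hβ]
    exact Nat.Coprime.prod_right fun v _ => hcop n v
  exact h5.dvd_of_dvd_mul_left ⟨_, h2⟩

end Pool.Agent.H556.DV
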