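import Mathlib
import Pool.Agent.H556.DV.Core
import Pool.Agent.H556.FG.Seq

/-!
# Common divisors of `2 ^ e + σ` and short sums of `S`-units
-/

set_option autoImplicit false

namespace Pool.Agent.H556.DV

open Filter Topology Pool.Agent.TH932.Germs Pool.Agent.TH551.SU Pool.Agent.Y724.Vj
open Pool.Agent.H556.RT (LT LT_tendsto LT_nonneg exp_LT)

/-- the families of exponents: `σ 2 ^ e` is not a power with a given exponent (up to the sign),
and `2 ^ e + σ` has no small prime factors -/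
structure Adm (σ : ℤ) (E : Set ℕ) : Prop where
  sg : σ = 1 ∨ σ = -1
  pr : ∀ l : ℕ, l.Prime → (σ = 1 → l ≠ 2) → ∃ e0, ∀ e ∈ E, e0 ≤ e → ¬ l ∣ e
  four : σ = 1 → ∃ e0, ∀ e ∈ E, e0 ≤ e → ¬ 4 ∣ e + 2
  cop : ∀ l : ℕ, l.Prime → ∃ e0, ∀ e ∈ E, e0 ≤ e → ¬ (l : ℤ) ∣ 2 ^ e + σ

/-- a set of primes as a family -/
lemma exists_base (S : Finset ℕ) :
    ∃ (s : ℕ) (b : Fin s → ℕ) (v2 : Fin s), (∀ v, (b v).Prime) ∧ Function.Injective b ∧
      b v2 = 2 ∧ ∀ p ∈ S, p.Prime → ∃ v, b v = p := by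
  classical
  set S' : Finset ℕ := insert 2 (S.filter Nat.Prime) with hS'
  set b : Fin S'.card → ℕ := fun v => (S'.equivFin.symm v : ℕ) with hb0
  have hb : ∀ v, (b v).Prime := by
    intro v
    have h1 := (S'.equivFin.symm v).2
    rcases Finset.mem_insert.1 h1 with h2 | h2
    · rw [hb0]
      simp only []
      rw [h2]
      exact Nat.prime_two
    · exact (Finset.mem_filter.1 h2).2
  have hbi : Function.Injective b := fun x y h =>
    S'.equivFin.symm.injective (Subtype.ext h)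
  have hbs : ∀ p ∈ S', ∃ v, b v = p := fun p hp =>
    ⟨S'.equivFin ⟨p, hp⟩, by rw [hb0]; simp⟩
  obtain ⟨v2, hv2⟩ := hbs 2 (Finset.mem_insert_self _ _)
  exact ⟨_, b, v2, hb, hbi, hv2, fun p hp hp' =>
    hbs p (Finset.mem_insert_of_mem (Finset.mem_filter.2 ⟨hp, hp'⟩))⟩

/-- a bound beyond which the numbers are prime to a given family of primes -/
lemma Adm.cop_all {σ : ℤ} {E : Set ℕ} (hE : Adm σ E) {s : ℕ} (b : Fin s → ℕ)
    (hb : ∀ v, (b v).Prime) : ∃ e0, ∀ e ∈ E, e0 ≤ e → ∀ v, ¬ (b v : ℤ) ∣ 2 ^ e + σ := by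
  choose f hf using fun v => hE.cop (b v) (hb v)
  refine ⟨∑ v, f v, fun e he h v => hf v e he ?_⟩
  exact (Finset.single_le_sum (f := f) (fun _ _ => Nat.zero_le _) (Finset.mem_univ v)).trans h

lemma NN_ne {σ : ℤ} (hσ : σ = 1 ∨ σ = -1) {e : ℕ} (he : 1 ≤ e) : (0 : ℤ) < 2 ^ e + σ := by
  have h1 : (2 : ℤ) ^ 1 ≤ 2 ^ e := pow_le_pow_right₀ (by norm_num) he
  rcases hσ with rfl | rfl <;> omega

/-- the hypotheses of `core` along a sequence -/
lemma Adm.seq {σ : ℤ} {E : Set ℕ} (hE : Adm σ E) {e : ℕ → ℕ} (he : Tendsto e atTop atTop)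
    (heE : ∀ n, e n ∈ E) :
    (∀ l : ℕ, l.Prime → (σ = 1 → l ≠ 2) → ∀ᶠ n in (UU : Filter ℕ), ¬ l ∣ e n) ∧
    (σ = 1 → ∀ᶠ n in (UU : Filter ℕ), ¬ 4 ∣ e n + 2) := by
  refine ⟨fun l hl hl2 => ?_, fun hs => ?_⟩
  · obtain ⟨e0, h0⟩ := hE.pr l hl hl2
    filter_upwards [ev_of_atTop (he.eventually_ge_atTop e0)] with n hn
    exact h0 _ (heE n) hn
  · obtain ⟨e0, h0⟩ := hE.four hs
    filter_upwards [ev_of_atTop (he.eventually_ge_atTop e0)] with n hn
    exact h0 _ (heE n) hn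

/-- the logarithm of `2 ^ e` -/
noncomputable def lt (e : ℕ) : ℝ := e * Real.log 2

lemma lt_nonneg (e : ℕ) : 0 ≤ lt e := mul_nonneg (Nat.cast_nonneg _) (Real.log_nonneg (by norm_num))

lemma LT_eq (e : ℕ → ℕ) (n : ℕ) : LT e n = lt (e n) := rfl

/-- the theorem in qualitative form -/
theorem main {σ : ℤ} {E : Set ℕ} (hE : Adm σ E) (S : Finset ℕ) (r : ℕ) (K δ : ℝ) (hδ : 0 < δ) :
    ∃ ε : ℝ, 0 < ε ∧ ∃ e₀ : ℕ, ∀ e ∈ E, e₀ ≤ e → ∀ (c : Fin r → ℤ) (u : Fin r → ℚ),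
      (∀ i, |(c i : ℝ)| ≤ Real.exp (ε * lt e)) → (∀ i, u i ≠ 0) →
      (∀ i, ∀ p : ℕ, p.Prime → (p ∣ (u i).num.natAbs ∨ p ∣ (u i).den) → p ∈ S) →
      (∀ i, |((u i).num : ℝ)| ≤ Real.exp (K * lt e) ∧
        ((u i).den : ℝ) ≤ Real.exp (K * lt e)) →
      ¬ (2 ^ e + σ) ∣ (∑ i, (c i : ℚ) * u i).num →
      ∀ d : ℕ, (d : ℤ) ∣ 2 ^ e + σ → (d : ℤ) ∣ (∑ i, (c i : ℚ) * u i).num →
      (d : ℝ) < Real.exp (δ * lt e) := by
  classical
  by_contra hcon
  push Not at hcon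
  -- the primes
  obtain ⟨s, b, v2, hb, hbi, hv2, hbs⟩ := exists_base S
  obtain ⟨e1, he1⟩ := hE.cop_all b hb
  choose e heE hem c u hc hu0 hu huB hNF D hDF hDG hD using
    fun n : ℕ => hcon (1 / ((n : ℝ) + 1)) (by positivity) (n + 1 + e1)
  have het : Tendsto e atTop atTop :=
    tendsto_atTop_mono (fun n => ((Nat.le_add_right n (1 + e1)).trans (by have := hem n; omega)))
      tendsto_id
  have hL := LT_tendsto het
  obtain ⟨hpr, hfour⟩ := hE.seq het heE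
  have hN : ∀ n, (((2 ^ e n + σ : ℤ).natAbs : ℕ) : ℤ) = 2 ^ e n + σ := fun n => by
    have := NN_ne hE.sg (e := e n) (by have := hem n; omega)
    omega
  refine core b hb hbi v2 hv2 het hE.sg hpr hfour (fun n => (2 ^ e n + σ : ℤ).natAbs)
    (fun n => ?_) hN (fun n v => ?_) (fun i n => c n i) (fun i n => u n i)
    (fun i n => ?_) (fun i => ?_) (fun i => ?_) D (fun n => ?_) hDG (fun n => ?_) hδ (fun n => ?_)
  · have := NN_ne hE.sg (e := e n) (by have := hem n; omega)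
    omega
  · rw [Nat.coprime_comm, (hb v).coprime_iff_not_dvd, ← Int.natCast_dvd_natCast, hN n]
    exact he1 _ (heE n) (by have := hem n; omega) v
  · apply FG.isSU_of b hb _ (hu0 n i) _ hbi
    intro p hp hd
    exact hbs p (hu n i p hp hd) hp
  · refine ⟨fun n => (u n i).num, fun n => ((u n i).den : ℤ), K, ?_, ?_, ?_, ?_⟩
    · exact Eventually.of_forall fun n => (huB n i).1
    · refine Eventually.of_forall fun n => ?_
      rw [Int.cast_natCast, abs_of_nonneg (Nat.cast_nonneg _)]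
      exact (huB n i).2
    · exact Eventually.of_forall fun n => Int.natCast_ne_zero.2 (u n i).den_ne_zero
    · congr 1
      funext n
      exact_mod_cast (Rat.num_div_den (u n i)).symm
  · intro ε hε
    obtain ⟨N, hN⟩ := exists_nat_gt (1 / ε)
    filter_upwards [ev_of_atTop (eventually_ge_atTop N), L_nonneg hL] with n hn hn2
    refine (hc n i).trans (Real.exp_le_exp.2 ?_)
    apply mul_le_mul_of_nonneg_right _ (lt_nonneg _)
    have hN' : (N : ℝ) ≤ n := by exact_mod_cast hn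
    rw [div_le_iff₀ (by positivity)]
    rw [div_lt_iff₀ hε] at hN
    nlinarith
  · rw [← Int.natCast_dvd_natCast, hN n]
    exact hDF n
  · rw [hN n]
    exact hNF n
  · exact hD n

end Pool.Agent.H556.DV
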