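import Mathlib
import Pool.Agent.H556.CP.Main
import Pool.Agent.H556.DV.Seq

/-!
# Divisors of `2 ^ e + σ`: the algebraic case
-/

set_option autoImplicit false

namespace Pool.Agent.H556.DV

open Filter Topology Pool.Agent.TH932.Abs Pool.Agent.TH932.Germs Pool.Agent.TH932.Chi
open Pool.Agent.TH796.AL Pool.Agent.TH551.SU Pool.Agent.Y724.Vj Pool.Agent.H556.CP
open Pool.Agent.H556.RT (LT LT_tendsto LT_nonneg exp_LT)

/-- change of sign of the first variable -/
noncomputable def tw (σ : ℤ) : Polynomial ℤ →+* Polynomial ℤ :=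
  Polynomial.compRingHom (Polynomial.C σ * Polynomial.X)

lemma tw_tw {σ : ℤ} (hσ : σ = 1 ∨ σ = -1) (p : Polynomial ℤ) : tw σ (tw σ p) = p := by
  have h2 : σ * σ = 1 := by rcases hσ with rfl | rfl <;> norm_num
  unfold tw
  rw [Polynomial.coe_compRingHom_apply, Polynomial.coe_compRingHom_apply, Polynomial.comp_assoc,
    Polynomial.mul_comp, Polynomial.C_comp, Polynomial.X_comp, ← mul_assoc, ← Polynomial.C_mul, h2,
    Polynomial.C_1, one_mul, Polynomial.comp_X]

lemma tw_ne {σ : ℤ} (hσ : σ = 1 ∨ σ = -1) {R : Polynomial (Polynomial ℤ)} (hR : R ≠ 0) :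
    R.map (tw σ) ≠ 0 := by
  rw [Polynomial.map_ne_zero_iff]
  · exact hR
  · intro p q h
    rw [← tw_tw hσ p, h, tw_tw hσ]

lemma evG_tw (σ : ℤ) (T z : GG) (R : Polynomial (Polynomial ℤ)) :
    evG T z (R.map (tw σ)) = evG ((σ : GG) * T) z R := by
  unfold evG
  rw [Polynomial.eval₂_map]
  congr 1
  apply Polynomial.ringHom_ext
  · intro n
    simp
  · have h1 : tw σ Polynomial.X = Polynomial.C σ * Polynomial.X := by
      unfold tw
      rw [Polynomial.coe_compRingHom_apply, Polynomial.X_comp]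
    rw [RingHom.comp_apply, h1, Polynomial.coe_eval₂RingHom, Polynomial.coe_eval₂RingHom,
      Polynomial.eval₂_mul, Polynomial.eval₂_C, Polynomial.eval₂_X, Polynomial.eval₂_X]
    rfl

/-- the germ of `2 ^ (e / q)` -/
lemma isCh_root {s : ℕ} (B0 : Base s) (v2 : Fin s) (hP2 : B0.P v2 = 2) {e : ℕ → ℕ}
    (he : Tendsto e atTop atTop) {q : ℕ} (hq : 1 ≤ q) :
    IsCh B0 (LT_tendsto he) (gm fun n => (2 : ℚ) ^ (e n / q))
      (Pi.single v2 (1 / (q * Real.log 2))) := by
  have hL := LT_tendsto he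
  have hlog2 : 0 < Real.log 2 := Real.log_pos (by norm_num)
  have hq0 : (0 : ℝ) < q := by exact_mod_cast (by omega : 0 < q)
  have h1 := isCh_prime (B0 := B0) (hL := hL) v2 (fun n => ((e n / q : ℕ) : ℤ))
    (1 / (q * Real.log 2)) (by
    intro δ hδ
    have h3 : ∀ᶠ n in atTop, 1 ≤ δ * LT e n :=
      (hL.const_mul_atTop hδ).eventually_ge_atTop _
    filter_upwards [ev_of_atTop h3] with n hn
    refine le_trans ?_ hn
    have h2 : LT e n = e n * Real.log 2 := rfl
    have h4 : 1 / (q * Real.log 2) * LT e n = (e n : ℝ) / q := by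
      rw [h2]
      field_simp
    rw [h4, Int.cast_natCast, abs_le]
    have h5 : ((e n / q : ℕ) : ℝ) ≤ (e n : ℝ) / q := Nat.cast_div_le
    have h6 : (e n : ℝ) / q < ((e n / q : ℕ) : ℝ) + 1 := by
      rw [div_lt_iff₀ hq0]
      have : e n < (e n / q + 1) * q := by
        have h7 := Nat.div_add_mod (e n) q
        have h8 := Nat.mod_lt (e n) (show 0 < q by omega)
        nlinarith
      exact_mod_cast this
    constructor <;> linarith)
  rw [hP2] at h1
  simp only [zpow_natCast] at h1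
  exact_mod_cast h1

/-- **the algebraic case** -/
theorem alg_false {σ : ℤ} {E : Set ℕ} (hE : Adm σ E) {s : ℕ} (b : Fin s → ℕ)
    (hb : ∀ v, (b v).Prime) (hbi : Function.Injective b) (v2 : Fin s) (hv2 : b v2 = 2)
    {e : ℕ → ℕ} (het : Tendsto e atTop atTop) (heE : ∀ n, e n ∈ E) (c d : ℕ → ℤ)
    (hc0 : ∀ n, c n ≠ 0) (hd0 : ∀ n, d n ≠ 0) (hc : Negl (LT e) c) (hd : Negl (LT e) d)
    (w : ℕ → ℚ) (hw : ∀ n, IsSU b (w n)) {K : ℝ}
    (hwn : ∀ n, |((w n).num : ℝ)| ≤ Real.exp (K * LT e n))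
    (hwd : ∀ n, ((w n).den : ℝ) ≤ Real.exp (K * LT e n))
    (a a' : ℕ → ℕ) (haa : ∀ n, (a n : ℤ) * a' n = 2 ^ e n + σ) {ε : ℝ} (hε : 0 < ε)
    (ha : ∀ n, Real.exp (ε * LT e n) ≤ a n) (ha' : ∀ n, Real.exp (ε * LT e n) ≤ a' n)
    (R : Polynomial (Polynomial ℤ)) (hR : R ≠ 0)
    (hRz : evG (gm fun n => (σ : ℚ) * 2 ^ e n)
      (gm fun n => (a n : ℚ) / ((c n : ℚ) / d n * w n)) R = 0) : False := by
  classical
  have hL := LT_tendsto het
  set L := LT e with hLdef
  set B0 := bs b hb hbi with hB0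
  have hP2 : B0.P v2 = 2 := hv2
  have hev1 : ∀ᶠ n in (UU : Filter ℕ), 1 ≤ L n := ev_of_atTop (hL.eventually_ge_atTop 1)
  have hwn0 : ∀ n, w n ≠ 0 := by
    intro n h0
    have := hw n
    rw [h0] at this
    obtain ⟨s', e', hs', he'⟩ := this
    have h1 : ((s' : ℤ) : ℚ) * ∏ v, (b v : ℚ) ^ (e' v) ≠ 0 := by
      refine mul_ne_zero ?_ (Finset.prod_ne_zero_iff.2 fun v _ =>
        zpow_ne_zero _ (by exact_mod_cast (hb v).ne_zero))
      rcases hs' with rfl | rfl <;> norm_num
    exact h1 he'.symm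
  have hwB : Bd L (gm w) := by
    refine ⟨fun n => (w n).num, fun n => ((w n).den : ℤ), K, ?_, ?_, ?_, ?_⟩
    · exact Eventually.of_forall hwn
    · refine Eventually.of_forall fun n => ?_
      simp only [Int.cast_natCast]
      rw [abs_of_nonneg (Nat.cast_nonneg _)]
      exact hwd n
    · exact Eventually.of_forall fun n => Int.natCast_ne_zero.2 (w n).den_ne_zero
    · congr 1
      funext n
      exact_mod_cast (Rat.num_div_den (w n)).symm
  obtain ⟨gw, hgw⟩ := isCh_su b hb hbi hL hw hwB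
  set u : ℕ → ℚ := fun n => (c n : ℚ) / d n * w n with hu
  have hu0 : ∀ n, u n ≠ 0 := fun n =>
    mul_ne_zero (div_ne_zero (by exact_mod_cast hc0 n) (by exact_mod_cast hd0 n)) (hwn0 n)
  have hcd : gm (fun n => (c n : ℚ) / d n) ∈ KK L hL :=
    ⟨c, d, hc, hd, Eventually.of_forall hd0, rfl⟩
  have hcd0 : gm (fun n => (c n : ℚ) / d n) ≠ 0 := by
    rw [gm_ne_zero]
    exact Eventually.of_forall fun n =>
      div_ne_zero (by exact_mod_cast hc0 n) (by exact_mod_cast hd0 n)
  have hU : IsCh B0 hL (gm u) gw := by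
    have h1 := (IsCh.const (B0 := B0) (hL := hL) hcd hcd0).mul hgw
    rw [zero_add, gm_mul] at h1
    exact h1
  set A : GG := gm fun n => ((a n : ℤ) : ℚ) with hA
  have hAint : ∀ v, A ∈ Sv B0 L (some v) 0 := fun v => int_fin B0 hL (fun n => (a n : ℤ)) v
  have hAs : Sint B0 L A := int_sint B0 hL (fun n => (a n : ℤ))
  -- the size of `u`
  have husz : ∀ᶠ n in (UU : Filter ℕ), |(u n : ℝ)| ≤ Real.exp ((K + 1) * L n) := by
    filter_upwards [hc 1 (by norm_num)] with n h1
    rw [hu]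
    push_cast
    have h2 : |((w n : ℚ) : ℝ)| ≤ Real.exp (K * L n) := by
      have h3 : |((w n : ℚ) : ℝ)| ≤ |((w n).num : ℝ)| := by
        conv_lhs => rw [← Rat.num_div_den (w n)]
        push_cast
        rw [abs_div]
        have h4 : (1 : ℝ) ≤ |((w n).den : ℝ)| := by
          rw [abs_of_nonneg (Nat.cast_nonneg _)]
          exact_mod_cast (w n).den_pos
        exact div_le_self (abs_nonneg _) h4
      exact h3.trans (hwn n)
    have h3 : |(c n : ℝ) / d n| ≤ Real.exp (1 * L n) := by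
      rw [abs_div]
      have h4 : (1 : ℝ) ≤ |(d n : ℝ)| := by
        exact_mod_cast Int.one_le_abs (hd0 n)
      exact (div_le_self (abs_nonneg _) h4).trans h1
    rw [abs_mul]
    calc _ ≤ Real.exp (1 * L n) * Real.exp (K * L n) :=
          mul_le_mul h3 h2 (abs_nonneg _) (Real.exp_pos _).le
      _ = _ := by rw [← Real.exp_add]; ring_nf
  -- the expansion
  obtain ⟨J, hJ⟩ := exists_nat_gt (K + 2)
  have hRt : evG (gm fun n => (2 : ℚ) ^ e n) (gm fun n => (a n : ℚ) / u n) (R.map (tw σ)) = 0 := by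
    rw [evG_tw]
    have h1 : (σ : GG) * (gm fun n => (2 : ℚ) ^ e n) = gm fun n => (σ : ℚ) * 2 ^ e n := by
      have h2 : (σ : GG) = gm (fun _ => (σ : ℚ)) := rfl
      rw [h2, gm_mul]
    rw [h1]
    exact hRz
  rw [evG_gm, ← gm_zero, gm_eq] at hRt
  obtain ⟨q, ρ, M, k, γ, hq, hk, hγ, hρ, happ⟩ := expand het (fun n => (a n : ℚ) / u n)
    (R.map (tw σ)) (tw_ne hE.sg hR) hRt J
  have hq0 : (0 : ℝ) < q := by exact_mod_cast (by omega : 0 < q)
  -- the units
  have hEr := isCh_root B0 v2 hP2 het hq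
  set Er : GG := gm fun n => (2 : ℚ) ^ (e n / q) with hErdef
  set ui : Fin M → GG := fun i => gm u * Er ^ k i with hui
  have huiC : ∀ i, IsCh B0 hL (ui i)
      (gw + (k i : ℝ) • (Pi.single v2 (1 / (q * Real.log 2)) : Fin s → ℝ)) :=
    fun i => hU.mul (hEr.zpow (k i))
  have hEk : ∀ i, Er ^ k i = gm (fun n => (2 : ℚ) ^ (k i * ((e n / q : ℕ) : ℤ))) := by
    intro i
    have h1 : ∀ j : ℕ, Er ^ j = gm (fun n => (2 : ℚ) ^ (((j : ℕ) : ℤ) * ((e n / q : ℕ) : ℤ))) := by
      intro j
      rw [hErdef, gm_pow]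
      congr 1
      funext n
      rw [← pow_mul, ← Nat.cast_mul, zpow_natCast, mul_comm]
    cases hki : k i with
    | ofNat j =>
      rw [Int.ofNat_eq_natCast, zpow_natCast, h1]
    | negSucc j =>
      rw [zpow_negSucc, h1, gm_inv]
      congr 1
      funext n
      rw [← zpow_neg]
      congr 1
  have huie : ∀ (S : Finset (Fin M)) (γ' : Fin M → ℝ), ∑ i ∈ S, algebraMap ℝ HR (γ' i) * rho (ui i) =
      gr (fun n => ∑ i ∈ S, γ' i * ((u n : ℝ) * (2 : ℝ) ^ (k i * ((e n / q : ℕ) : ℤ)))) := by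
    intro S γ'
    induction S using Finset.induction_on with
    | empty => simp only [Finset.sum_empty]; exact gr_zero.symm
    | insert i S hi ih =>
      rw [Finset.sum_insert hi, ih, hui]
      simp only []
      rw [hEk, gm_mul, rho_gm, cst_eq, gr_mul, gr_add]
      congr 1
      funext n
      rw [Finset.sum_insert hi]
      push_cast
      rfl
  have hrho : rho A - ∑ i, algebraMap ℝ HR (γ i) * rho (ui i) ∈ SR L 1 := by
    rw [huie, hA, rho_gm, gr_sub, mem_SR]
    intro δ hδ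
    filter_upwards [happ, husz, hev1] with n g1 g2 g3
    have hune : ((u n : ℚ) : ℝ) ≠ 0 := by exact_mod_cast hu0 n
    have e1 : (((a n : ℤ) : ℚ) : ℝ) - ∑ i, γ i * ((u n : ℝ) * (2 : ℝ) ^ (k i * ((e n / q : ℕ) : ℤ))) =
        (u n : ℝ) * ((((a n : ℚ) / u n : ℚ) : ℝ) - ∑ i, γ i * (2 : ℝ) ^ (k i * ((e n / q : ℕ) : ℤ))) := by
      rw [mul_sub, Finset.mul_sum]
      congr 1
      · push_cast
        field_simp
      · refine Finset.sum_congr rfl fun i _ => ?_
        ring
    rw [e1, abs_mul]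
    calc |(u n : ℝ)| * |(((a n : ℚ) / u n : ℚ) : ℝ) - ∑ i, γ i * (2 : ℝ) ^ (k i * ((e n / q : ℕ) : ℤ))|
        ≤ Real.exp ((K + 1) * L n) * Real.exp (-J * L n) :=
          mul_le_mul g2 g1 (abs_nonneg _) (Real.exp_pos _).le
      _ = Real.exp (((K + 1) - J) * L n) := by
          rw [← Real.exp_add]
          congr 1
          ring
      _ ≤ _ := by
          apply Real.exp_le_exp.2
          nlinarith
  obtain ⟨N, c', hNc, hsum⟩ := comb B0 hL A hAint hAs M ui _ huiC γ hγ (η := 1)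
    (by norm_num) hrho
  have hsume : ∀ S : Finset (Fin M), ∑ i ∈ S, (c' i : GG) * ui i =
      gm (fun n => ∑ i ∈ S, (c' i : ℚ) * (u n * (2 : ℚ) ^ (k i * ((e n / q : ℕ) : ℤ)))) := by
    intro S
    induction S using Finset.induction_on with
    | empty => simp only [Finset.sum_empty]; exact gm_zero.symm
    | insert i S hi ih =>
      rw [Finset.sum_insert hi, ih, hui]
      simp only []
      have h4 : (c' i : GG) = gm (fun _ => (c' i : ℚ)) := rfl
      rw [hEk, gm_mul, h4, gm_mul, gm_add]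
      congr 1
      funext n
      rw [Finset.sum_insert hi]
  have hN : N ≠ 0 := by
    rintro rfl
    have hc' : c' ≠ 0 := by simpa using hNc
    apply hc'
    rw [Int.cast_zero, zero_mul, hsume, ← gm_zero, gm_eq] at hsum
    have hxt : Tendsto (fun n => (2 : ℝ) ^ (e n / q)) atTop atTop :=
      (tendsto_pow_atTop_atTop_of_one_lt (by norm_num)).comp
        ((Nat.tendsto_div_const_atTop (by omega)).comp het)
    apply pow_indep hxt k hk c'
    filter_upwards [hsum] with n g1
    have g3 : (u n : ℚ) * ∑ i, (c' i : ℚ) * (2 : ℚ) ^ (k i * ((e n / q : ℕ) : ℤ)) = 0 := by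
      rw [Finset.mul_sum, g1]
      refine Finset.sum_congr rfl fun i _ => ?_
      ring
    have g4 := (mul_eq_zero.1 g3).resolve_left (hu0 n)
    have g5 := congrArg (fun r : ℚ => (r : ℝ)) g4
    simp only [Rat.cast_sum, Rat.cast_mul, Rat.cast_zpow, Rat.cast_intCast, Rat.cast_ofNat,
      Rat.cast_zero] at g5
    rw [← g5]
    refine Finset.sum_congr rfl fun i _ => ?_
    rw [← zpow_natCast, ← zpow_mul, mul_comm (k i)]
  -- the contradiction
  rw [hsume, hA] at hsum
  have h4 : (N : GG) = gm (fun _ => (N : ℚ)) := rfl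
  rw [h4, gm_mul, gm_eq] at hsum
  set S0 : Finset ℕ := Finset.univ.image b with hS0
  set Kk : ℕ := ∑ i, (k i).natAbs with hKk
  obtain ⟨ε1, hε1, e₁, hmain⟩ := main hE S0 M (K + Kk) ε hε
  obtain ⟨n, g1, g2, g3, g4, g5, g6⟩ := (hsum.and ((hc (ε1 / 2) (by positivity)).and
    ((hd (ε / 2) (by positivity)).and
    ((ev_of_atTop ((hL.const_mul_atTop (by positivity : 0 < ε1 / 2)).eventually_ge_atTop
      (∑ i, |(c' i : ℝ)|))).and
    ((ev_of_atTop ((hL.const_mul_atTop (by positivity : 0 < ε / 2)).eventually_ge_atTop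
      |(N : ℝ)|)).and (ev_of_atTop (het.eventually_ge_atTop e₁))))))).exists
  have hdn : (d n : ℚ) ≠ 0 := by exact_mod_cast hd0 n
  have hL0 : 0 ≤ L n := LT_nonneg e n
  -- the sum
  have hs1 : ∑ i, ((c' i * c n : ℤ) : ℚ) * (w n * (2 : ℚ) ^ (k i * ((e n / q : ℕ) : ℤ))) =
      ((d n * N * (a n : ℤ) : ℤ) : ℚ) := by
    have h5 : ((d n * N * (a n : ℤ) : ℤ) : ℚ) = d n * ((N : ℚ) * ((a n : ℤ) : ℚ)) := by
      push_cast
      ring
    rw [h5, g1, Finset.mul_sum]
    refine Finset.sum_congr rfl fun i _ => ?_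
    rw [hu]
    simp only [Int.cast_mul]
    field_simp
  have hFK : ∀ j : ℕ, j ≤ Kk * (e n / q) → (2 : ℝ) ^ j ≤ Real.exp (Kk * L n) := by
    intro j hj
    calc (2 : ℝ) ^ j ≤ (2 : ℝ) ^ (Kk * e n) := by
          apply pow_le_pow_right₀ (by norm_num)
          exact hj.trans (Nat.mul_le_mul_left _ (Nat.div_le_self _ _))
      _ = ((2 : ℝ) ^ e n) ^ Kk := by rw [mul_comm, pow_mul]
      _ = Real.exp (Kk * L n) := by rw [← exp_LT, ← Real.exp_nat_mul]
  have key := hmain (e n) (heE n) g6 (fun i => c' i * c n)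
    (fun i => w n * (2 : ℚ) ^ (k i * ((e n / q : ℕ) : ℤ)))
    (by
      intro i
      push_cast
      rw [abs_mul]
      have h5 : |(c' i : ℝ)| ≤ Real.exp (ε1 / 2 * L n) :=
        (Finset.single_le_sum (f := fun i => |(c' i : ℝ)|) (fun _ _ => abs_nonneg _)
          (Finset.mem_univ i)).trans (g4.trans
            ((Real.add_one_le_exp _).trans' (by linarith)))
      have h7 : Real.exp (ε1 / 2 * L n) * Real.exp (ε1 / 2 * L n) = Real.exp (ε1 * L n) := by
        rw [← Real.exp_add]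
        congr 1
        ring
      change _ ≤ Real.exp (ε1 * L n)
      rw [← h7]
      exact mul_le_mul h5 g2 (abs_nonneg _) (Real.exp_pos _).le)
    (fun i => mul_ne_zero (hwn0 n) (zpow_ne_zero _ (by norm_num)))
    (by
      intro i p hp hpd
      have h5 : IsSU b (w n * (2 : ℚ) ^ (k i * ((e n / q : ℕ) : ℤ))) := by
        refine FG.isSU_mul hb (hw n) ⟨1, Pi.single v2 (k i * ((e n / q : ℕ) : ℤ)), Or.inl rfl, ?_⟩
        rw [Finset.prod_eq_single v2]
        · rw [Pi.single_eq_same, hv2]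
          push_cast
          ring
        · intro v _ hv
          rw [Pi.single_eq_of_ne hv, zpow_zero]
        · intro h
          exact absurd (Finset.mem_univ _) h
      exact su_primes b hb h5 hp hpd)
    (by
      intro i
      have hki : (k i).natAbs ≤ Kk :=
        Finset.single_le_sum (f := fun i => (k i).natAbs) (fun _ _ => Nat.zero_le _)
          (Finset.mem_univ i)
      set j : ℤ := k i * ((e n / q : ℕ) : ℤ) with hj
      have hjab : j.natAbs ≤ Kk * (e n / q) := by
        rw [hj, Int.natAbs_mul, Int.natAbs_natCast]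
        exact Nat.mul_le_mul_right _ hki
      have h2 : (2 : ℚ) ^ j = (2 : ℚ) ^ j.toNat / (2 : ℚ) ^ (-j).toNat := by
        rw [← zpow_natCast, ← zpow_natCast, ← zpow_sub₀ (by norm_num)]
        congr 1
        omega
      have h3 := height_le ((w n).num * 2 ^ j.toNat) ((w n).den * 2 ^ (-j).toNat)
        (mul_ne_zero (by exact_mod_cast (w n).den_ne_zero) (by positivity))
        (mul_ne_zero (Rat.num_ne_zero.2 (hwn0 n)) (by positivity)) (w n * (2 : ℚ) ^ j) (by
          rw [h2]
          conv_lhs => rw [← Rat.num_div_den (w n)]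
          push_cast
          field_simp)
      have hFs : Real.exp ((K + (Kk : ℝ)) * lt (e n)) = Real.exp (K * L n) * Real.exp (Kk * L n) := by
        rw [← Real.exp_add]
        congr 1
        have : L n = lt (e n) := rfl
        rw [this]
        ring
      rw [hFs]
      refine ⟨h3.1.trans ?_, h3.2.1.trans ?_⟩
      · push_cast
        rw [abs_mul, abs_of_pos (show (0 : ℝ) < 2 ^ j.toNat by positivity)]
        exact mul_le_mul (hwn n) (hFK _ (by omega)) (by positivity) (Real.exp_pos _).le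
      · push_cast
        rw [abs_mul, abs_of_pos (show (0 : ℝ) < 2 ^ (-j).toNat by positivity),
          abs_of_nonneg (Nat.cast_nonneg _)]
        exact mul_le_mul (hwd n) (hFK _ (by omega)) (by positivity) (Real.exp_pos _).le)
    (by
      rw [hs1, Rat.num_intCast]
      intro hdv
      rw [← haa n, mul_comm (d n * N)] at hdv
      have han : (a n : ℤ) ≠ 0 := by
        intro h6
        have h7 : (a n : ℝ) = 0 := by exact_mod_cast h6
        have := ha n
        have := Real.exp_pos (ε * LT e n)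
        linarith
      have h6 := Int.dvd_of_mul_dvd_mul_left han hdv
      have h7 : d n * N ≠ 0 := mul_ne_zero (hd0 n) hN
      have h8 := Int.le_of_dvd (abs_pos.2 h7) ((dvd_abs _ _).2 h6)
      have h9 : (a' n : ℝ) ≤ |(d n : ℝ)| * |(N : ℝ)| := by
        rw [← abs_mul]
        have : (((a' n : ℕ) : ℤ) : ℝ) ≤ ((|d n * N| : ℤ) : ℝ) := by exact_mod_cast h8
        push_cast at this
        exact this
      have h11 : Real.exp (ε / 2 * L n) * Real.exp (ε / 2 * L n) = Real.exp (ε * L n) := by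
        rw [← Real.exp_add]
        congr 1
        ring
      have h12 : |(N : ℝ)| < Real.exp (ε / 2 * L n) := by
        have := Real.add_one_le_exp (ε / 2 * L n)
        linarith
      have h13 : |(d n : ℝ)| * |(N : ℝ)| < Real.exp (ε * L n) := by
        rw [← h11]
        calc |(d n : ℝ)| * |(N : ℝ)| ≤ Real.exp (ε / 2 * L n) * |(N : ℝ)| :=
              mul_le_mul_of_nonneg_right g3 (abs_nonneg _)
          _ < _ := mul_lt_mul_of_pos_left h12 (Real.exp_pos _)
      have h14 := ha' n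
      change Real.exp (ε * L n) ≤ _ at h14
      linarith)
    (a n) (by rw [← haa n]; exact Dvd.intro _ rfl) (by
      rw [hs1, Rat.num_intCast]; exact Dvd.intro_left _ rfl)
  have h5 := ha n
  change (a n : ℝ) < Real.exp (ε * LT e n) at key
  linarith

end Pool.Agent.H556.DV
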