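import Mathlib
import Pool.Agent.H556.CP.Trans

/-!
# Approximation at several places on the surface `T z z' = T + 1`, transcendental case
-/

set_option autoImplicit false

namespace Pool.Agent.H556.DV

open Filter Topology Pool.Agent.TH932.Abs Pool.Agent.TH932.Germs Pool.Agent.TH932.Chi
open Pool.Agent.TH796.AL Pool.Agent.H556.CP

section abstract_field

variable {G : Type*} [Field G] [CharZero G]

/-- integral relations from rational ones -/
lemma int_rel {ι : Type*} [Fintype ι] (x : ι → G) {g : G}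
    (hg : g ∈ Submodule.span ℚ (Set.range x)) :
    ∃ N : ℤ, N ≠ 0 ∧ ∃ c : ι → ℤ, (N : G) * g = ∑ j, (c j : G) * x j := by
  classical
  rw [Submodule.mem_span_range_iff_exists_fun] at hg
  obtain ⟨q, rfl⟩ := hg
  set D : ℤ := ∏ j, ((q j).den : ℤ) with hD
  have hD0 : D ≠ 0 := Finset.prod_ne_zero_iff.2 fun j _ => by exact_mod_cast (q j).den_ne_zero
  refine ⟨D, hD0, fun j => (q j).num * ∏ i ∈ Finset.univ.erase j, ((q i).den : ℤ), ?_⟩
  rw [Finset.mul_sum]
  refine Finset.sum_congr rfl fun j _ => ?_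
  have h1 : (D : ℚ) * q j = (((q j).num * ∏ i ∈ Finset.univ.erase j, ((q i).den : ℤ) : ℤ) : ℚ) := by
    rw [hD, ← Finset.mul_prod_erase Finset.univ _ (Finset.mem_univ j)]
    push_cast
    have h2 : (q j) * (q j).den = (q j).num := Rat.mul_den_eq_num (q j)
    rw [← h2]
    ring
  rw [Algebra.smul_def, ← mul_assoc]
  congr 1
  have h3 : (D : G) = algebraMap ℚ G D := by simp
  rw [h3, ← map_mul, h1]
  simp

/-- independence over the integers gives independence over the rational numbers -/
lemma lin_of_int {ι : Type*} [Fintype ι] (x : ι → G)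
    (h : ∀ c : ι → ℤ, ∑ i, (c i : G) * x i = 0 → ∀ i, c i = 0) : LinearIndependent ℚ x := by
  classical
  rw [Fintype.linearIndependent_iff]
  intro q hq i
  set D : ℤ := ∏ j, ((q j).den : ℤ) with hD
  have hD0 : D ≠ 0 := Finset.prod_ne_zero_iff.2 fun j _ => by exact_mod_cast (q j).den_ne_zero
  have h2 : ∀ j, (D : ℚ) * q j =
      (((q j).num * ∏ i ∈ Finset.univ.erase j, ((q i).den : ℤ) : ℤ) : ℚ) := by
    intro j
    rw [hD, ← Finset.mul_prod_erase Finset.univ _ (Finset.mem_univ j)]
    push_cast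
    have h2 : (q j) * (q j).den = (q j).num := Rat.mul_den_eq_num (q j)
    rw [← h2]
    ring
  have h3 := h (fun j => (q j).num * ∏ i ∈ Finset.univ.erase j, ((q i).den : ℤ)) (by
    have h4 : (algebraMap ℚ G D) * ∑ j, q j • x j = 0 := by rw [hq, mul_zero]
    rw [← h4, Finset.mul_sum]
    refine Finset.sum_congr rfl fun j _ => ?_
    rw [Algebra.smul_def, ← mul_assoc, ← map_mul, h2]
    simp) i
  have h5 : (D : ℚ) * q i = 0 := by
    rw [h2 i]
    exact_mod_cast h3
  exact (mul_eq_zero.1 h5).resolve_left (by exact_mod_cast hD0)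

lemma int_of_lin {ι : Type*} [Fintype ι] (x : ι → G) (h : LinearIndependent ℚ x)
    (c : ι → ℤ) (hc : ∑ i, (c i : G) * x i = 0) (i : ι) : c i = 0 := by
  rw [Fintype.linearIndependent_iff] at h
  have := h (fun i => (c i : ℚ)) (by
    rw [← hc]
    refine Finset.sum_congr rfl fun j _ => ?_
    rw [Algebra.smul_def]
    simp) i
  exact_mod_cast this

/-- the basis adapted to the point `z = 1` -/
def g1 {A : Type*} [CommRing A] (a B : ℕ) (T z z' : A) (ω k : ℕ) : A :=
  if ω < a then T ^ ω * yy a z z' k else T ^ ω * z' ^ (k - B) * (z - 1) ^ k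

/-- **change of basis, integral coefficients** -/
theorem change {a B M : ℕ} {T z z' : G} (h : T * z * z' = T + 1)
    (hind : ∀ c : Fin (M + 1) × Fin (a + B + 1) → ℤ,
      ∑ x, (c x : G) * (T ^ (x.1 : ℕ) * yy a z z' x.2) = 0 → ∀ x, c x = 0) :
    (∀ c : Fin (M + 1) × Fin (a + B + 1) → ℤ,
      ∑ x, (c x : G) * g1 a B T z z' x.1 x.2 = 0 → ∀ x, c x = 0) ∧
    (∀ x : Fin (M + 1) × Fin (a + B + 1), ∃ N : ℤ, N ≠ 0 ∧
      ∃ c : Fin (M + 1) × Fin (a + B + 1) → ℤ,
        (N : G) * g1 a B T z z' x.1 x.2 = ∑ j, (c j : G) * (T ^ (j.1 : ℕ) * yy a z z' j.2)) ∧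
    (∀ x : Fin (M + 1) × Fin (a + B + 1), ∃ N : ℤ, N ≠ 0 ∧
      ∃ c : Fin (M + 1) × Fin (a + B + 1) → ℤ,
        (N : G) * (T ^ (x.1 : ℕ) * yy a z z' x.2) = ∑ j, (c j : G) * g1 a B T z z' j.1 j.2) := by
  classical
  have hg : ∀ ω k : ℕ, gg a B T z z' (1 : ℚ) ω k = g1 a B T z z' ω k := by
    intro ω k
    unfold gg g1
    rw [map_one]
  set xx : Fin (M + 1) × Fin (a + B + 1) → G := fun x => T ^ (x.1 : ℕ) * yy a z z' x.2 with hxx
  set gx : Fin (M + 1) × Fin (a + B + 1) → G := fun x => g1 a B T z z' x.1 x.2 with hgx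
  have hindx : LinearIndependent ℚ xx := lin_of_int xx hind
  have hspan1 : ∀ x, gx x ∈ Submodule.span ℚ (Set.range xx) := by
    intro x
    have h1 := gg_mem h (1 : ℚ) (a := a) (B := B) (ω := x.1) (k := x.2) x.2.2
    rw [hg] at h1
    refine Submodule.span_mono ?_ h1
    rintro _ ⟨w, j, hj, h2, rfl⟩
    have hw : w < M + 1 := by have := x.1.2; omega
    exact ⟨(⟨w, hw⟩, ⟨j, hj⟩), rfl⟩
  have hspan2 : ∀ x, xx x ∈ Submodule.span ℚ (Set.range gx) := by
    intro x
    have h1 := span_le h (one_ne_zero : (1 : ℚ) ≠ 0) M x.1 (by have := x.1.2; omega) x.2 x.2.2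
    refine Submodule.span_mono ?_ h1
    rintro _ ⟨w, k, hw, hk, rfl⟩
    exact ⟨(⟨w, by omega⟩, ⟨k, hk⟩), (hg _ _).symm⟩
  have hspan : Submodule.span ℚ (Set.range gx) = Submodule.span ℚ (Set.range xx) := by
    apply le_antisymm
    · rw [Submodule.span_le]
      rintro _ ⟨x, rfl⟩
      exact hspan1 x
    · rw [Submodule.span_le]
      rintro _ ⟨x, rfl⟩
      exact hspan2 x
  have hindg : LinearIndependent ℚ gx := by
    rw [linearIndependent_iff_card_eq_finrank_span] at hindx ⊢
    rw [hindx]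
    unfold Set.finrank
    rw [hspan]
  exact ⟨fun c hc => int_of_lin gx hindg c hc, fun x => int_rel xx (hspan1 x),
    fun x => int_rel gx (hspan2 x)⟩

end abstract_field

/-- **the transcendental case, several places** -/
theorem transQ {s : ℕ} (B0 : Base s) {L : ℕ → ℝ} (hL : Tendsto L atTop atTop) {T z z' : GG}
    (h : T * z * z' = T + 1) (τ ζ θ κ : Option (Fin s) → ℝ) (hτ : ∑ v, τ v = 0)
    (hθ : ∑ v, θ v = 1) (hT : ∀ v, T ∈ Sv B0 L v (τ v)) (hz : ∀ v, z ∈ Sv B0 L v (-ζ v))
    (hz' : ∀ v, z' ∈ Sv B0 L v (ζ v - θ v)) (hTs : Sint B0 L T) (hzs : Sint B0 L z)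
    (hzs' : Sint B0 L z') {y : ℝ} (hy : ∑ v, ζ v = y) (hy0 : 0 ≤ y) (hy1 : y ≤ 1)
    (hκ0 : ∀ v, 0 ≤ κ v) (hκ : y * (1 - y) < ∑ v, κ v)
    (hclose : ∀ v, 0 < κ v → ζ v = 0 ∧ z - 1 ∈ Sv B0 L v (κ v))
    (hno : ∀ R : Polynomial (Polynomial ℤ), R ≠ 0 → evG T z R ≠ 0) : False := by
  classical
  have hF := fun v => filt_v (B := B0) hL v
  have hpowS : ∀ {x : GG}, Sint B0 L x → ∀ k : ℕ, Sint B0 L (x ^ k) := by
    intro x hx k
    induction k with
    | zero => rw [pow_zero]; exact Sint.alg hL 1
    | succ k ih => rw [pow_succ]; exact Sint.mul hL ih hx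
  have h1s : Sint B0 L (1 : GG) := Sint.alg hL 1
  have hm1s : Sint B0 L (-1 : GG) := by
    have := Sint.alg (B := B0) (L := L) hL (-1)
    simpa using this
  have hz1s : Sint B0 L (z - 1) := by
    rw [sub_eq_add_neg]
    exact Sint.add hL hzs hm1s
  -- the parameters
  obtain ⟨a, B, hab⟩ := exists_ab hy0 hy1 hκ
  obtain ⟨M, haM, hM⟩ := exists_M hab a
  set ι := Fin (M + 1) × Fin (a + B + 1) with hι
  set xx : ι → GG := fun x => T ^ (x.1 : ℕ) * yy a z z' x.2 with hxx
  set gx : ι → GG := fun x => g1 a B T z z' x.1 x.2 with hgx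
  have hindZ := indep h hno a B M
  obtain ⟨hindg, hgxx, hxxg⟩ := change h hindZ
  -- the families
  set zz : Option (Fin s) → ι → GG := fun v => if 0 < κ v then gx else xx with hzz
  have htriv : ∀ (f : ι → GG) (i : ι), ∃ N : ℤ, N ≠ 0 ∧ ∃ c : ι → ℤ,
      (N : GG) * f i = ∑ j, (c j : GG) * f j := by
    intro f i
    refine ⟨1, one_ne_zero, fun j => if j = i then 1 else 0, ?_⟩
    rw [Finset.sum_eq_single i]
    · simp
    · intro j _ hj
      simp [hj]
    · intro h
      exact absurd (Finset.mem_univ _) h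
  -- the weights of the products
  set wm : Option (Fin s) → ι → ℝ := fun v x => (x.1 : ℕ) * τ v + if a ≤ (x.2 : ℕ) then
      -(((x.2 : ℕ) - a : ℕ) : ℝ) * ζ v else ((a - (x.2 : ℕ) : ℕ) : ℝ) * (ζ v - θ v) with hwm
  have hyyw : ∀ v (j : ℕ), yy a z z' j ∈ Sv B0 L v (if a ≤ j then
      -((j - a : ℕ) : ℝ) * ζ v else ((a - j : ℕ) : ℝ) * (ζ v - θ v)) := by
    intro v j
    unfold yy
    split_ifs with hj
    · have h2 := (hF v).pow_mem (hz v) (j - a)
      have h3 : -ζ v * ((j - a : ℕ) : ℝ) = -((j - a : ℕ) : ℝ) * ζ v := by ring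
      rw [h3] at h2
      exact h2
    · rw [mul_comm]
      exact (hF v).pow_mem (hz' v) _
  have hTw : ∀ v (ω : ℕ), T ^ ω ∈ Sv B0 L v (ω * τ v) := by
    intro v ω
    rw [mul_comm]
    exact (hF v).pow_mem (hT v) _
  set ww : Option (Fin s) → ι → ℝ := fun v x => if 0 < κ v then
      (if (x.1 : ℕ) < a then wm v x else (x.1 : ℕ) * τ v - (((x.2 : ℕ) - B : ℕ) : ℝ) * θ v +
        κ v * (x.2 : ℕ)) else wm v x with hww
  have key := fixq_thm s B0 L hL ι inferInstance zz ww
    (fun v c hc => by
      rw [hzz] at hc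
      simp only [] at hc
      split_ifs at hc
      · exact hindg c hc
      · exact hindZ c hc)
    (fun v i => by
      rw [hzz]
      simp only []
      split_ifs
      · exact htriv gx i
      · exact hgxx i
      · exact hxxg i
      · exact htriv xx i)
    (by
      intro v x
      rw [hzz, hww]
      simp only []
      split_ifs with hv hω
      · -- the products
        rw [hgx]
        simp only []
        unfold g1
        rw [if_pos hω]
        exact (hF v).mul_mem (hTw v _) (hyyw v _)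
      · rw [hgx]
        simp only []
        unfold g1
        rw [if_neg hω]
        obtain ⟨hζ, hc⟩ := hclose v hv
        have h1 := (hF v).pow_mem (hz' v) ((x.2 : ℕ) - B)
        have h2 := (hF v).pow_mem hc (x.2 : ℕ)
        have h3 := (hF v).mul_mem ((hF v).mul_mem (hTw v x.1) h1) h2
        refine (hF v).anti (le_of_eq ?_) h3
        rw [hζ]
        ring
      · exact (hF v).mul_mem (hTw v _) (hyyw v _))
    (by
      intro x
      have hx : Sint B0 L (xx x) := by
        rw [hxx]
        refine Sint.mul hL (hpowS hTs _) ?_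
        unfold yy
        split_ifs
        · exact hpowS hzs _
        · exact hpowS hzs' _
      rw [hzz]
      simp only []
      split_ifs
      · rw [hgx]
        simp only []
        unfold g1
        split_ifs
        · exact hx
        · exact Sint.mul hL (Sint.mul hL (hpowS hTs _) (hpowS hzs' _)) (hpowS hz1s _)
      · exact hx)
  -- the sums
  have hsum1 : ∀ v, ∑ x, ww v x = ∑ x, wm v x +
      ((M : ℝ) + 1 - a) * (κ v * (((a + B : ℕ) : ℝ) * (((a + B : ℕ) : ℝ) + 1) / 2)) := by
    intro v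
    rw [hww]
    simp only []
    by_cases hv : 0 < κ v
    · simp only [if_pos hv]
      rw [Fintype.sum_prod_type, Fintype.sum_prod_type]
      obtain ⟨hζ, -⟩ := hclose v hv
      -- the rows
      have hrow : ∀ ω : Fin (M + 1), (∑ j : Fin (a + B + 1), if (ω : ℕ) < a then wm v (ω, j) else
          (ω : ℕ) * τ v - (((j : ℕ) - B : ℕ) : ℝ) * θ v + κ v * (j : ℕ)) =
          ∑ j : Fin (a + B + 1), wm v (ω, j) + if (ω : ℕ) < a then 0 else
            κ v * (((a + B : ℕ) : ℝ) * (((a + B : ℕ) : ℝ) + 1) / 2) := by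
        intro ω
        by_cases hω : (ω : ℕ) < a
        · simp only [if_pos hω, add_zero]
        · simp only [if_neg hω]
          rw [Finset.sum_add_distrib, ← Finset.mul_sum,
            Fin.sum_univ_eq_sum_range (fun j : ℕ => (j : ℝ)), sum_id]
          congr 1
          rw [hwm]
          simp only [hζ, mul_zero, zero_sub]
          rw [Finset.sum_sub_distrib, Finset.sum_add_distrib]
          have e1 : ∑ j : Fin (a + B + 1), (((j : ℕ) - B : ℕ) : ℝ) * θ v =
              (a * (a + 1) / 2 : ℝ) * θ v := by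
            rw [← Finset.sum_mul]
            congr 1
            rw [Fin.sum_univ_eq_sum_range (fun j : ℕ => ((j - B : ℕ) : ℝ)),
              show a + B + 1 = B + (a + 1) by ring, Finset.sum_range_add,
              Finset.sum_eq_zero (fun i hi => by
                have := Finset.mem_range.1 hi
                rw [show i - B = 0 by omega, Nat.cast_zero]), zero_add]
            simp only [Nat.add_sub_cancel_left]
            exact sum_id a
          have e2 : (∑ j : Fin (a + B + 1), if a ≤ (j : ℕ) then (0 : ℝ) else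
              ((a - (j : ℕ) : ℕ) : ℝ) * -θ v) = -((a * (a + 1) / 2 : ℝ) * θ v) := by
            rw [Fin.sum_univ_eq_sum_range (fun j : ℕ => if a ≤ j then (0 : ℝ) else
              ((a - j : ℕ) : ℝ) * -θ v), show a + B + 1 = a + (B + 1) by ring,
              Finset.sum_range_add, Finset.sum_eq_zero (s := Finset.range (B + 1)) (fun i _ => by
                rw [if_pos (Nat.le_add_right a i)]), add_zero,
              Finset.sum_congr rfl (fun i hi => by
                rw [if_neg (by have := Finset.mem_range.1 hi; omega)]), ← Finset.sum_mul]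
            have e3 : ∑ i ∈ Finset.range a, ((a - i : ℕ) : ℝ) = a * (a + 1) / 2 := by
              rw [← Finset.sum_range_reflect]
              rw [← sum_id a, Finset.sum_range_succ']
              rw [Nat.cast_zero, add_zero]
              refine Finset.sum_congr rfl fun i hi => ?_
              congr 1
              have := Finset.mem_range.1 hi
              omega
            rw [e3]
            ring
          rw [e1, e2]
          ring
      rw [Finset.sum_congr rfl fun ω _ => hrow ω, Finset.sum_add_distrib]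
      congr 1
      rw [Fin.sum_univ_eq_sum_range (fun ω : ℕ => if ω < a then (0 : ℝ) else
        κ v * (((a + B : ℕ) : ℝ) * (((a + B : ℕ) : ℝ) + 1) / 2))]
      obtain ⟨d, rfl⟩ := Nat.exists_eq_add_of_le haM
      rw [show a + d + 1 = a + (d + 1) by ring, Finset.sum_range_add,
        Finset.sum_eq_zero (fun ω hω => by rw [if_pos (Finset.mem_range.1 hω)]), zero_add,
        Finset.sum_congr rfl (fun ω _ => by rw [if_neg (by omega)]), Finset.sum_const,
        Finset.card_range, nsmul_eq_mul]
      push_cast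
      ring
    · have hv0 : κ v = 0 := le_antisymm (not_lt.1 hv) (hκ0 v)
      simp only [if_neg hv]
      rw [hv0, zero_mul, mul_zero, add_zero]
  rw [Finset.sum_congr rfl fun v _ => hsum1 v, Finset.sum_add_distrib, Finset.sum_comm,
    ← Finset.mul_sum, ← Finset.sum_mul] at key
  have h1 : ∀ x : ι, ∑ v, wm v x = dd a y x.2 := by
    rintro ⟨ω, j⟩
    rw [hwm]
    simp only []
    rw [Finset.sum_add_distrib, ← Finset.mul_sum, hτ, mul_zero, zero_add]
    unfold dd
    split_ifs with hj
    · rw [← Finset.mul_sum, hy]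
    · rw [← Finset.mul_sum, Finset.sum_sub_distrib, hy, hθ]
  rw [Finset.sum_congr rfl fun x _ => h1 x, Fintype.sum_prod_type] at key
  have h2 : ∑ ω : Fin (M + 1), ∑ j : Fin (a + B + 1), dd a y ((ω, j) : ι).2 =
      ((M : ℝ) + 1) * -((1 - y) * (a * (a + 1) / 2) + y * (B * (B + 1) / 2)) := by
    simp only []
    rw [Finset.sum_const, Finset.card_univ, Fintype.card_fin, nsmul_eq_mul,
      Fin.sum_univ_eq_sum_range (fun j => dd a y j), sum_dd]
    push_cast
    ring
  rw [h2] at key
  linarith

end Pool.Agent.H556.DV
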