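import Mathlib
import Pool.Agent.H556.DV.Alg
import Pool.Agent.H556.DV.Trans

/-!
# Divisors of `2 ^ e + σ` and linear forms with `S`-unit coefficients: the theorem for sequences
-/

set_option autoImplicit false

namespace Pool.Agent.H556.DV

open Filter Topology Pool.Agent.TH932.Abs Pool.Agent.TH932.Germs Pool.Agent.TH932.Chi
open Pool.Agent.TH796.AL Pool.Agent.TH551.SU Pool.Agent.Y724.Vj Pool.Agent.H556.CP
open Pool.Agent.H556.RT (LT LT_tendsto LT_nonneg exp_LT)

section places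

variable {s : ℕ} (B0 : Base s) {L : ℕ → ℝ} (hL : Tendsto L atTop atTop)
include hL

/-- the valuation of `1` -/
lemma one_le_zero {v : Option (Fin s)} {t : ℝ} (h : (1 : GG) ∈ Sv B0 L v t) : t ≤ 0 := by
  classical
  have key := fixq_thm s B0 L hL Unit inferInstance (fun _ _ => 1)
    (fun v' _ => if v' = v then t else 0)
    (by
      intro _ c hc i
      simp only [Finset.univ_unique, Finset.sum_singleton, mul_one] at hc
      have h2 : (c (default : Unit) : GG) = gm (fun _ => (c default : ℚ)) := rfl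
      rw [h2, ← gm_zero, gm_eq] at hc
      obtain ⟨n, hn⟩ := hc.exists
      cases i
      exact_mod_cast hn)
    (fun _ _ => ⟨1, one_ne_zero, fun _ => 1, by simp⟩)
    (by
      intro v' _
      split_ifs with h1
      · rw [h1]; exact h
      · have := (filt_v (B := B0) hL v').alg_mem 1
        simpa using this)
    (fun _ => by
      have := Sint.alg (B := B0) (L := L) hL 1
      simpa using this)
  simpa using key

/-- two terms of different sizes -/
lemma three {v : Option (Fin s)} {X Y W : GG} {ξ1 ξ2 ξ3 : ℝ} (h : X + Y = W)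
    (hX : X ∈ Sv B0 L v ξ1) (hX' : X⁻¹ ∈ Sv B0 L v (-ξ1)) (hX0 : X ≠ 0)
    (hY : Y ∈ Sv B0 L v ξ2) (hY' : Y⁻¹ ∈ Sv B0 L v (-ξ2)) (hY0 : Y ≠ 0)
    (hW : W ∈ Sv B0 L v ξ3) (hne : ξ1 ≠ ξ2) : ξ3 ≤ min ξ1 ξ2 := by
  have hF := filt_v (B := B0) hL v
  have hneg : ∀ {g : GG} {t : ℝ}, g ∈ Sv B0 L v t → -g ∈ Sv B0 L v t := by
    intro g t hg
    have h1 := hF.mul_mem (hF.alg_mem (-1)) hg
    have h2 : algebraMap (KK L hL) GG (-1) = -1 := by simp
    rw [h2, zero_add, neg_one_mul] at h1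
    exact h1
  -- the smaller one
  have main : ∀ {X Y : GG} {ξ1 ξ2 : ℝ}, X + Y = W → X⁻¹ ∈ Sv B0 L v (-ξ1) → X ≠ 0 →
      Y ∈ Sv B0 L v ξ2 → ξ1 < ξ2 → ξ3 ≤ ξ1 := by
    intro X Y ξ1 ξ2 h hX' hX0 hY hlt
    by_contra hcon
    push Not at hcon
    have h1 : X⁻¹ * (W + -Y) = 1 := by
      rw [← h]
      field_simp
      ring
    have h2 := hF.mul_mem hX' (hF.add_mem (hF.anti (min_le_left ξ3 ξ2) hW)
      (hneg (hF.anti (min_le_right ξ3 ξ2) hY)))
    rw [h1] at h2
    have h3 := one_le_zero B0 hL h2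
    have h4 : ξ1 < min ξ3 ξ2 := lt_min hcon hlt
    linarith
  rcases lt_or_gt_of_ne hne with hlt | hlt
  · rw [min_eq_left hlt.le]
    exact main h hX' hX0 hY hlt
  · rw [min_eq_right hlt.le]
    exact main (by rw [add_comm]; exact h) hY' hY0 hX hlt

/-- inverses of integers prime to the given prime -/
lemma inv_fin (a : ℕ → ℤ) (v : Fin s)
    (h : ∀ᶠ n in (UU : Filter ℕ), a n ≠ 0 ∧ IsCoprime (a n) (B0.P v : ℤ)) :
    (gm (fun n => (a n : ℚ)))⁻¹ ∈ Sv B0 L (some v) 0 := by
  rw [gm_inv]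
  change gm _ ∈ SS L (Rv B0 (some v)) 0
  rw [mem_SS]
  intro ε hε
  filter_upwards [L_nonneg hL, h] with n hn h1
  refine ⟨1, a n, 1, 0, one_ne_zero, ?_, h1.2, ?_, ?_⟩
  · rw [Int.cast_one, abs_one]
    exact Real.one_le_exp (mul_nonneg hε.le hn)
  · have : (a n : ℚ) ≠ 0 := by exact_mod_cast h1.1
    push_cast
    field_simp
  · push_cast
    nlinarith

end places

/-- an `S`-unit is prime to a number without prime factors in `S` -/
lemma coprime_su {s : ℕ} {b : Fin s → ℕ} (hb : ∀ v, (b v).Prime) {a : ℕ} {V : ℤ}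
    (hV : IsSU b (V : ℚ)) (ha : ∀ v, ¬ b v ∣ a) : IsCoprime (a : ℤ) V := by
  rw [Int.isCoprime_iff_gcd_eq_one, Int.gcd_eq_natAbs, Int.natAbs_natCast]
  refine Nat.coprime_of_dvd fun p hp hpa hpV => ?_
  have h1 := su_primes b hb hV hp (Or.inl (by rwa [Rat.num_intCast]))
  rw [Finset.mem_image] at h1
  obtain ⟨v, -, rfl⟩ := h1
  exact ha v hpa

/-- **the theorem for sequences** -/
theorem coreN {σ : ℤ} {E : Set ℕ} (hE : Adm σ E) {s : ℕ} (b : Fin s → ℕ)
    (hb : ∀ v, (b v).Prime) (hbi : Function.Injective b) (v2 : Fin s) (hv2 : b v2 = 2)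
    {e : ℕ → ℕ} (het : Tendsto e atTop atTop) (heE : ∀ n, e n ∈ E) (he1 : ∀ n, 1 ≤ e n)
    (hcop : ∀ n v, ¬ (b v : ℤ) ∣ 2 ^ e n + σ) (c d U V S k : ℕ → ℤ)
    (hc0 : ∀ n, c n ≠ 0) (hd0 : ∀ n, d n ≠ 0) (hc : Negl (LT e) c) (hd : Negl (LT e) d)
    (hU : ∀ n, IsSU b (U n : ℚ)) (hV : ∀ n, IsSU b (V n : ℚ)) (hS : ∀ n, IsSU b (S n : ℚ))
    (hUV : ∀ n, IsCoprime (U n) (V n)) {K : ℝ}
    (hUK : ∀ n, |(U n : ℝ)| ≤ Real.exp (K * LT e n))
    (hVK : ∀ n, |(V n : ℝ)| ≤ Real.exp (K * LT e n))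
    (a a' : ℕ → ℕ) (haa : ∀ n, (a n : ℤ) * a' n = 2 ^ e n + σ) {ε : ℝ} (hε : 0 < ε)
    (ha : ∀ n, Real.exp (ε * LT e n) ≤ a n) (ha' : ∀ n, Real.exp (ε * LT e n) ≤ a' n)
    (hrel : ∀ n, c n * U n * a n + d n * V n = k n * S n)
    (hk : ∀ n, |(k n : ℝ)| ≤ max (|(U n : ℝ)| * a n) |(V n : ℝ)| *
      Real.exp (-(Real.log (a n) * Real.log (a' n) / LT e n) - ε * LT e n)) : False := by
  classical
  have hL := LT_tendsto het
  set L := LT e with hLdef
  set B0 := bs b hb hbi with hB0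
  have hF := fun v => filt_v (B := B0) hL v
  have hev1 : ∀ᶠ n in (UU : Filter ℕ), 1 ≤ L n := ev_of_atTop (hL.eventually_ge_atTop 1)
  have hLn : ∀ n, 0 ≤ L n := fun n => LT_nonneg e n
  have ha1 : ∀ n, (1 : ℝ) ≤ a n := fun n =>
    (Real.one_le_exp (mul_nonneg hε.le (hLn n))).trans (ha n)
  have ha1' : ∀ n, (1 : ℝ) ≤ a' n := fun n =>
    (Real.one_le_exp (mul_nonneg hε.le (hLn n))).trans (ha' n)
  -- signs and nonvanishing
  have hSU0 : ∀ x : ℤ, IsSU b (x : ℚ) → x ≠ 0 := by
    rintro x ⟨s', e', hs', he'⟩ rfl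
    have h1 : ((s' : ℤ) : ℚ) * ∏ v, (b v : ℚ) ^ (e' v) ≠ 0 := by
      refine mul_ne_zero ?_ (Finset.prod_ne_zero_iff.2 fun v _ =>
        zpow_ne_zero _ (by exact_mod_cast (hb v).ne_zero))
      rcases hs' with rfl | rfl <;> norm_num
    rw [← he'] at h1
    simp at h1
  have hU0 := fun n => hSU0 _ (hU n)
  have hV0 := fun n => hSU0 _ (hV n)
  have hS0 := fun n => hSU0 _ (hS n)
  -- `a` is prime to `S`
  have hab : ∀ n v, ¬ b v ∣ a n := by
    intro n v h
    apply hcop n v
    rw [← haa n]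
    exact Dvd.dvd.mul_right (by exact_mod_cast h) _
  have hab' : ∀ n v, ¬ b v ∣ a' n := by
    intro n v h
    apply hcop n v
    rw [← haa n]
    exact Dvd.dvd.mul_left (by exact_mod_cast h) _
  -- `k ≠ 0`
  have hk0 : ∀ᶠ n in (UU : Filter ℕ), k n ≠ 0 := by
    filter_upwards [hd (ε / 2) (by positivity), hev1] with n h1 h2 h3
    have h4 := hrel n
    rw [h3, zero_mul] at h4
    have h5 : (a n : ℤ) ∣ d n * V n :=
      ⟨-(c n * U n), by linear_combination h4⟩
    have h6 := (coprime_su hb (hV n) (hab n)).dvd_of_dvd_mul_right h5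
    have h7 := Int.le_of_dvd (abs_pos.2 (hd0 n)) ((dvd_abs _ _).2 h6)
    have h8 : (a n : ℝ) ≤ |(d n : ℝ)| := by
      have : (((a n : ℕ) : ℤ) : ℝ) ≤ ((|d n| : ℤ) : ℝ) := by exact_mod_cast h7
      push_cast at this
      exact this
    have h9 := Real.exp_le_exp.1 (((ha n).trans h8).trans h1)
    change ε * L n ≤ ε / 2 * L n at h9
    nlinarith
  -- sizes of the factors
  have hprod : ∀ n, (a n : ℝ) * a' n = Real.exp (L n) + σ := by
    intro n
    have h1 : (((a n : ℤ) * a' n : ℤ) : ℝ) = ((2 ^ e n + σ : ℤ) : ℝ) := by rw [haa n]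
    push_cast at h1
    rw [hLdef, exp_LT]
    exact h1
  have hσabs : |(σ : ℝ)| ≤ 1 := by rcases hE.sg with rfl | rfl <;> norm_num
  have hloglim : ∀ᶠ n in (UU : Filter ℕ), |Real.log (a n) + Real.log (a' n) - L n| ≤ 1 := by
    filter_upwards [hev1] with n hn
    have h1 : 0 < (a n : ℝ) := by linarith [ha1 n]
    have h2 : 0 < (a' n : ℝ) := by linarith [ha1' n]
    have h3 := abs_le.1 hσabs
    have h4 : (2 : ℝ) ≤ Real.exp (L n) := by
      have := Real.add_one_le_exp (L n)
      linarith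
    have h5 : (2 : ℝ) ≤ Real.exp 1 := by
      have := Real.add_one_le_exp (1 : ℝ)
      linarith
    have hpos : 0 < Real.exp (L n) + σ := by linarith
    rw [← Real.log_mul h1.ne' h2.ne', hprod n, abs_le]
    have e1 : Real.log (Real.exp (L n) + σ) ≤ L n + 1 := by
      rw [Real.log_le_iff_le_exp hpos, Real.exp_add]
      nlinarith [Real.exp_pos (L n)]
    have e2 : L n - 1 ≤ Real.log (Real.exp (L n) + σ) := by
      rw [Real.le_log_iff_exp_le hpos, Real.exp_sub]
      rw [div_le_iff₀ (Real.exp_pos 1)]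
      nlinarith [Real.exp_pos (L n)]
    constructor <;> linarith
  have hla : ∀ n, 0 ≤ Real.log (a n) := fun n => Real.log_nonneg (ha1 n)
  have hla' : ∀ n, 0 ≤ Real.log (a' n) := fun n => Real.log_nonneg (ha1' n)
  obtain ⟨x, -, hx⟩ := exists_lim hL (fun n => Real.log (a n)) 2 (by
    filter_upwards [hloglim, hev1] with n h1 h2
    rw [abs_of_nonneg (hla n)]
    have := abs_le.1 h1
    have := hla' n
    linarith)
  have hx' : Tendsto (fun n => Real.log (a' n) / L n) (UU : Filter ℕ) (𝓝 (1 - x)) := by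
    have h1 : Tendsto (fun n => (Real.log (a n) + Real.log (a' n) - L n) / L n)
        (UU : Filter ℕ) (𝓝 0) := by
      rw [Metric.tendsto_nhds]
      intro δ hδ
      filter_upwards [hloglim, ev_of_atTop ((hL.const_mul_atTop hδ).eventually_gt_atTop 1),
        hev1] with n h1 h2 h3
      rw [Real.dist_eq, sub_zero, abs_div, abs_of_pos (show 0 < L n by linarith),
        div_lt_iff₀ (by linarith)]
      linarith
    have h2 := (h1.sub hx).add_const 1
    have h3 : (0 : ℝ) - x + 1 = 1 - x := by ring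
    rw [h3] at h2
    refine h2.congr' ?_
    filter_upwards [hev1] with n hn
    have : L n ≠ 0 := by linarith
    field_simp
    ring
  have hx0 : 0 ≤ x := ge_of_tendsto hx (by
    filter_upwards [hev1] with n hn
    exact div_nonneg (hla n) (by linarith))
  have hx1 : x ≤ 1 := by
    have : 0 ≤ 1 - x := ge_of_tendsto hx' (by
      filter_upwards [hev1] with n hn
      exact div_nonneg (hla' n) (by linarith))
    linarith
  -- real sizes from limits
  have hsize : ∀ (f : ℕ → ℤ) (t : ℝ), (∀ n, 1 ≤ |(f n : ℝ)|) →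
      Tendsto (fun n => Real.log |(f n : ℝ)| / L n) (UU : Filter ℕ) (𝓝 t) →
      gm (fun n => (f n : ℚ)) ∈ Sv B0 L none (-t) ∧
      (gm (fun n => (f n : ℚ)))⁻¹ ∈ Sv B0 L none t := by
    intro f t hf ht
    constructor
    · change gm _ ∈ SS L Rinf (-t)
      rw [mem_SS]
      intro δ hδ
      filter_upwards [ht.eventually (Metric.ball_mem_nhds t hδ), hev1] with n h1 h2
      rw [Real.dist_eq] at h1
      have h3 := (abs_lt.1 h1).2
      have h4 : Real.log |(f n : ℝ)| ≤ (t + δ) * L n := by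
        have h5 : Real.log |(f n : ℝ)| / L n ≤ t + δ := by linarith
        rwa [div_le_iff₀ (by linarith)] at h5
      change |((f n : ℚ) : ℝ)| ≤ Real.exp (-(-t - δ) * L n)
      push_cast
      rw [← Real.log_le_iff_le_exp (by linarith [hf n])]
      linarith
    · rw [gm_inv]
      change gm _ ∈ SS L Rinf t
      rw [mem_SS]
      intro δ hδ
      filter_upwards [ht.eventually (Metric.ball_mem_nhds t hδ), hev1] with n h1 h2
      rw [Real.dist_eq] at h1
      have h3 := (abs_lt.1 h1).1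
      have h4 : (t - δ) * L n ≤ Real.log |(f n : ℝ)| := by
        have h5 : t - δ ≤ Real.log |(f n : ℝ)| / L n := by linarith
        rwa [le_div_iff₀ (by linarith)] at h5
      change |(((f n : ℚ)⁻¹ : ℚ) : ℝ)| ≤ Real.exp (-(t - δ) * L n)
      push_cast
      have h6 : 0 < |(f n : ℝ)| := by linarith [hf n]
      rw [abs_inv, neg_mul, Real.exp_neg]
      apply inv_anti₀ (Real.exp_pos _)
      rwa [← Real.le_log_iff_exp_le h6]
  set A : GG := gm fun n => ((a n : ℤ) : ℚ) with hA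
  set A' : GG := gm fun n => ((a' n : ℤ) : ℚ) with hA'
  have hAr := hsize (fun n => (a n : ℤ)) x (fun n => by
    simp only [Int.cast_natCast]
    rw [abs_of_nonneg (Nat.cast_nonneg _)]
    exact ha1 n) (by
    simp only [Int.cast_natCast]
    refine hx.congr fun n => ?_
    rw [abs_of_nonneg (Nat.cast_nonneg _)])
  have hAr' := hsize (fun n => (a' n : ℤ)) (1 - x) (fun n => by
    simp only [Int.cast_natCast]
    rw [abs_of_nonneg (Nat.cast_nonneg _)]
    exact ha1' n) (by
    simp only [Int.cast_natCast]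
    refine hx'.congr fun n => ?_
    rw [abs_of_nonneg (Nat.cast_nonneg _)])
  have ha0 : ∀ n, a n ≠ 0 := fun n h0 => by
    have := ha1 n
    rw [h0] at this
    norm_num at this
  have hA0 : A ≠ 0 := gm_ne_zero.2 (Eventually.of_forall fun n => by exact_mod_cast ha0 n)
  have hcopb : ∀ n v, IsCoprime ((a n : ℕ) : ℤ) (B0.P v : ℤ) := by
    intro n v
    change IsCoprime ((a n : ℕ) : ℤ) ((b v : ℕ) : ℤ)
    rw [Nat.isCoprime_iff_coprime, Nat.coprime_comm, (hb v).coprime_iff_not_dvd]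
    exact hab n v
  -- the weights of `A`
  set ξA : Option (Fin s) → ℝ := fun v => v.elim (-x) (fun _ => 0) with hξA
  have hAm : ∀ v, A ∈ Sv B0 L v (ξA v) := by
    rintro (_ | v)
    · exact hAr.1
    · exact int_fin B0 hL (fun n => (a n : ℤ)) v
  have hAi : ∀ v, A⁻¹ ∈ Sv B0 L v (-ξA v) := by
    rintro (_ | v)
    · change A⁻¹ ∈ Sv B0 L none (- -x)
      rw [neg_neg]
      exact hAr.2
    · change A⁻¹ ∈ Sv B0 L (some v) (-0)
      rw [neg_zero]
      exact inv_fin B0 hL _ v (Eventually.of_forall fun n =>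
        ⟨by exact_mod_cast ha0 n, hcopb n v⟩)
  -- the units
  have hint : ∀ f : ℕ → ℤ, (∃ K' : ℝ, ∀ᶠ n in (UU : Filter ℕ), |(f n : ℝ)| ≤ Real.exp (K' * L n)) →
      Bd L (gm fun n => (f n : ℚ)) := by
    rintro f ⟨K', hK'⟩
    refine ⟨f, fun _ => 1, max K' 0, ?_, ?_, ?_, ?_⟩
    · filter_upwards [hK'] with n hn
      exact hn.trans (Real.exp_le_exp.2 (mul_le_mul_of_nonneg_right (le_max_left _ _) (hLn n)))
    · refine Eventually.of_forall fun n => ?_
      rw [Int.cast_one, abs_one]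
      exact Real.one_le_exp (mul_nonneg (le_max_right _ _) (hLn n))
    · exact Eventually.of_forall fun n => one_ne_zero
    · congr 1
      funext n
      push_cast
      rw [div_one]
  obtain ⟨gU, hgU⟩ := isCh_su b hb hbi hL hU (hint U ⟨K, Eventually.of_forall hUK⟩)
  obtain ⟨gV, hgV⟩ := isCh_su b hb hbi hL hV (hint V ⟨K, Eventually.of_forall hVK⟩)
  have hcle : ∀ᶠ n in (UU : Filter ℕ), |(c n : ℝ)| ≤ Real.exp (1 * L n) := hc 1 (by norm_num)
  have hdle : ∀ᶠ n in (UU : Filter ℕ), |(d n : ℝ)| ≤ Real.exp (1 * L n) := hd 1 (by norm_num)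
  have hale : ∀ᶠ n in (UU : Filter ℕ), (a n : ℝ) ≤ Real.exp (2 * L n) := by
    filter_upwards [hloglim, hev1] with n h1 h2
    rw [← Real.log_le_iff_le_exp (by linarith [ha1 n])]
    have := abs_le.1 h1
    have := hla' n
    linarith
  obtain ⟨gS, hgS⟩ := isCh_su b hb hbi hL hS (hint S ⟨|K| + 4, by
    filter_upwards [hcle, hdle, hale, hk0, hev1] with n h1 h2 h3 h4 h5
    have h6 : (1 : ℝ) ≤ |(k n : ℝ)| := by exact_mod_cast Int.one_le_abs h4
    have h7 : |(S n : ℝ)| ≤ |(c n : ℝ) * U n * a n + d n * V n| := by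
      have h8 : ((c n * U n * a n + d n * V n : ℤ) : ℝ) = ((k n * S n : ℤ) : ℝ) := by rw [hrel n]
      push_cast at h8
      rw [h8, abs_mul]
      exact le_mul_of_one_le_left (abs_nonneg _) h6
    have hK : Real.exp (K * L n) ≤ Real.exp (|K| * L n) :=
      Real.exp_le_exp.2 (mul_le_mul_of_nonneg_right (le_abs_self K) (hLn n))
    have h9 : |(c n : ℝ) * U n * a n| ≤ Real.exp ((|K| + 3) * L n) := by
      rw [abs_mul, abs_mul]
      calc |(c n : ℝ)| * |(U n : ℝ)| * |(a n : ℝ)| ≤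
            Real.exp (1 * L n) * Real.exp (|K| * L n) * Real.exp (2 * L n) := by
            refine mul_le_mul (mul_le_mul h1 ((hUK n).trans hK) (abs_nonneg _)
              (Real.exp_pos _).le) ?_ (abs_nonneg _) (by positivity)
            rw [abs_of_nonneg (Nat.cast_nonneg _)]
            exact h3
        _ = _ := by rw [← Real.exp_add, ← Real.exp_add]; ring_nf
    have h10 : |(d n : ℝ) * V n| ≤ Real.exp ((|K| + 3) * L n) := by
      rw [abs_mul]
      calc |(d n : ℝ)| * |(V n : ℝ)| ≤ Real.exp (1 * L n) * Real.exp (|K| * L n) :=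
            mul_le_mul h2 ((hVK n).trans hK) (abs_nonneg _) (Real.exp_pos _).le
        _ = Real.exp ((1 + |K|) * L n) := by rw [← Real.exp_add]; ring_nf
        _ ≤ _ := by
            apply Real.exp_le_exp.2
            nlinarith
    have h11 : (2 : ℝ) ≤ Real.exp (L n) := by
      have := Real.add_one_le_exp (L n)
      linarith
    calc |(S n : ℝ)| ≤ Real.exp ((|K| + 3) * L n) + Real.exp ((|K| + 3) * L n) :=
          h7.trans ((abs_add_le _ _).trans (add_le_add h9 h10))
      _ ≤ Real.exp ((|K| + 3) * L n) * Real.exp (L n) := by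
          nlinarith [Real.exp_pos ((|K| + 3) * L n)]
      _ = _ := by rw [← Real.exp_add]; ring_nf⟩)
  have hKK : ∀ f : ℕ → ℤ, Negl L f → gm (fun n => (f n : ℚ)) ∈ KK L hL := by
    intro f hf
    refine ⟨f, fun _ => 1, hf, Negl.one hL, by simp, ?_⟩
    congr 1
    funext n
    push_cast
    rw [div_one]
  have hne : ∀ f : ℕ → ℤ, (∀ n, f n ≠ 0) → gm (fun n => (f n : ℚ)) ≠ 0 := fun f hf =>
    gm_ne_zero.2 (Eventually.of_forall fun n => by exact_mod_cast hf n)
  have hcU := (IsCh.const (B0 := B0) (hL := hL) (hKK c hc) (hne c hc0)).mul hgU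
  have hdV := (IsCh.const (B0 := B0) (hL := hL) (hKK d hd) (hne d hd0)).mul hgV
  rw [zero_add] at hcU hdV
  set cU : GG := gm (fun n => (c n : ℚ)) * gm (fun n => (U n : ℚ)) with hcUdef
  set dV : GG := gm (fun n => (d n : ℚ)) * gm (fun n => (V n : ℚ)) with hdVdef
  have hcU0 : cU ≠ 0 := mul_ne_zero (hne c hc0) (hne U hU0)
  have hdV0 : dV ≠ 0 := mul_ne_zero (hne d hd0) (hne V hV0)
  set Gk : GG := gm (fun n => (k n : ℚ)) with hGk
  set GS : GG := gm (fun n => (S n : ℚ)) with hGS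
  have hXYW : cU * A + dV = Gk * GS := by
    rw [hcUdef, hdVdef, hGk, hGS, hA, gm_mul, gm_mul, gm_mul, gm_mul, gm_add]
    congr 1
    funext n
    have := hrel n
    exact_mod_cast this
  -- the weights
  set ξ1 : Option (Fin s) → ℝ := fun v => lv B0 v gU + ξA v with hξ1
  set ξ2 : Option (Fin s) → ℝ := fun v => lv B0 v gV with hξ2
  set θ : ℝ := -min (ξ1 none) (ξ2 none) - x * (1 - x) - ε with hθ
  set ξk : Option (Fin s) → ℝ := fun v => v.elim (-θ) (fun _ => 0) with hξk
  set ξ3 : Option (Fin s) → ℝ := fun v => ξk v + lv B0 v gS with hξ3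
  have hX : ∀ v, cU * A ∈ Sv B0 L v (ξ1 v) := fun v => (hF v).mul_mem (hcU.mem v) (hAm v)
  have hX' : ∀ v, (cU * A)⁻¹ ∈ Sv B0 L v (-ξ1 v) := by
    intro v
    rw [mul_inv]
    have h1 := (hF v).mul_mem (hcU.inv.mem v) (hAi v)
    rw [lv_neg] at h1
    refine (hF v).anti (le_of_eq ?_) h1
    rw [hξ1]
    ring
  have hX0 : cU * A ≠ 0 := mul_ne_zero hcU0 hA0
  have hY' : ∀ v, dV⁻¹ ∈ Sv B0 L v (-ξ2 v) := by
    intro v
    have h1 := hdV.inv.mem v
    rwa [lv_neg] at h1
  have hkm : ∀ v, Gk ∈ Sv B0 L v (ξk v) := by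
    rintro (_ | v)
    · change gm _ ∈ SS L Rinf (-θ)
      rw [mem_SS]
      intro δ hδ
      have h1 := hgU.mem none
      have h2 := hgV.mem none
      have h1' := (mem_SS.1 h1) (δ / 4) (by positivity)
      have h2' := (mem_SS.1 h2) (δ / 4) (by positivity)
      have h3' := (mem_SS.1 hAr.1) (δ / 4) (by positivity)
      have h4 : Tendsto (fun n => (Real.log (a n) / L n) * (Real.log (a' n) / L n))
          (UU : Filter ℕ) (𝓝 (x * (1 - x))) := hx.mul hx'
      filter_upwards [h1', h2', h3', h4.eventually (Metric.ball_mem_nhds _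
        (show 0 < δ / 4 by positivity)), hev1] with n g1 g2 g3 g4 g5
      rw [Real.dist_eq] at g4
      have g4' := (abs_lt.1 g4).1
      have g6 : (x * (1 - x) - δ / 4) * L n ≤ Real.log (a n) * Real.log (a' n) / L n := by
        have g7 : Real.log (a n) * Real.log (a' n) / L n =
            (Real.log (a n) / L n) * (Real.log (a' n) / L n) * L n := by
          field_simp
        rw [g7]
        exact mul_le_mul_of_nonneg_right (by linarith) (hLn n)
      change |((U n : ℚ) : ℝ)| ≤ Real.exp (-(lv B0 none gU - δ / 4) * L n) at g1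
      change |((V n : ℚ) : ℝ)| ≤ Real.exp (-(lv B0 none gV - δ / 4) * L n) at g2
      change |(((a n : ℤ) : ℚ) : ℝ)| ≤ Real.exp (-(-x - δ / 4) * L n) at g3
      push_cast at g1 g2 g3
      rw [abs_of_nonneg (Nat.cast_nonneg _)] at g3
      change |((k n : ℚ) : ℝ)| ≤ Real.exp (-(-θ - δ) * L n)
      push_cast
      refine (hk n).trans ?_
      set μ := min (ξ1 none) (ξ2 none) with hμ
      have hμ1 : μ ≤ lv B0 none gU - x := by
        have : ξ1 none = lv B0 none gU - x := by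
          change lv B0 none gU + -x = _
          ring
        rw [← this]
        exact min_le_left _ _
      have hμ2 : μ ≤ lv B0 none gV := min_le_right _ _
      have hmax : max (|(U n : ℝ)| * a n) |(V n : ℝ)| ≤ Real.exp ((-μ + δ / 2) * L n) := by
        apply max_le
        · calc |(U n : ℝ)| * a n ≤ Real.exp (-(lv B0 none gU - δ / 4) * L n) *
                Real.exp (-(-x - δ / 4) * L n) := mul_le_mul g1 g3 (Nat.cast_nonneg _)
                (Real.exp_pos _).le
            _ = Real.exp ((-(lv B0 none gU - x) + δ / 2) * L n) := by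
                rw [← Real.exp_add]; ring_nf
            _ ≤ _ := Real.exp_le_exp.2 (mul_le_mul_of_nonneg_right (by linarith) (hLn n))
        · exact g2.trans (Real.exp_le_exp.2 (mul_le_mul_of_nonneg_right (by linarith) (hLn n)))
      calc _ ≤ Real.exp ((-μ + δ / 2) * L n) *
            Real.exp (-(Real.log (a n) * Real.log (a' n) / L n) - ε * L n) :=
            mul_le_mul_of_nonneg_right hmax (Real.exp_pos _).le
        _ = Real.exp ((-μ + δ / 2) * L n - Real.log (a n) * Real.log (a' n) / L n - ε * L n) := by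
            rw [← Real.exp_add]; ring_nf
        _ ≤ _ := by
            apply Real.exp_le_exp.2
            rw [hθ]
            nlinarith
    · exact int_fin B0 hL k v
  have hW : ∀ v, Gk * GS ∈ Sv B0 L v (ξ3 v) := fun v => (hF v).mul_mem (hkm v) (hgS.mem v)
  -- coprimality
  have hmin : ∀ v : Fin s, min (ξ1 (some v)) (ξ2 (some v)) ≤ 0 := by
    intro v
    have h1 : ∀ n, IsCoprime (U n) (b v : ℤ) ∨ IsCoprime (V n) (b v : ℤ) := by
      intro n
      by_contra hcon
      push Not at hcon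
      have hpp : Prime ((b v : ℕ) : ℤ) := Nat.prime_iff_prime_int.1 (hb v)
      have h2 : ∀ y : ℤ, ¬ IsCoprime y (b v : ℤ) → (b v : ℤ) ∣ y := by
        intro y hy
        by_contra h3
        exact hy ((hpp.coprime_iff_not_dvd.2 h3).symm)
      have h3 := (hUV n).isUnit_of_dvd' (h2 _ hcon.1) (h2 _ hcon.2)
      exact hpp.not_isUnit h3
    rcases (UU.eventually_or (p := fun n => IsCoprime (U n) (b v : ℤ))
      (q := fun n => IsCoprime (V n) (b v : ℤ))).1 (Eventually.of_forall h1) with h2 | h2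
    · have h3 := inv_fin B0 hL U v (h2.mono fun n hn => ⟨hU0 n, hn⟩)
      have h4 := (hF (some v)).mul_mem (hgU.mem (some v)) h3
      rw [mul_inv_cancel₀ (hne U hU0)] at h4
      have h5 := one_le_zero B0 hL h4
      refine (min_le_left _ _).trans ?_
      change lv B0 (some v) gU + 0 ≤ 0
      linarith
    · have h3 := inv_fin B0 hL V v (h2.mono fun n hn => ⟨hV0 n, hn⟩)
      have h4 := (hF (some v)).mul_mem (hgV.mem (some v)) h3
      rw [mul_inv_cancel₀ (hne V hV0)] at h4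
      have h5 := one_le_zero B0 hL h4
      refine (min_le_right _ _).trans ?_
      change lv B0 (some v) gV ≤ 0
      linarith
  -- the germs `T`, `z`, `z'`
  have hlog2 : 0 < Real.log 2 := Real.log_pos (by norm_num)
  have hP2 : B0.P v2 = 2 := hv2
  have hσ2 : σ * σ = 1 := by rcases hE.sg with h | h <;> rw [h] <;> norm_num
  have hσne : σ ≠ 0 := by rcases hE.sg with h | h <;> rw [h] <;> norm_num
  have hσK : gm (fun _ => (σ : ℚ)) ∈ KK L hL := by
    apply hKK (fun _ => σ)
    intro δ hδ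
    filter_upwards with n
    exact hσabs.trans (Real.one_le_exp (mul_nonneg hδ.le (hLn n)))
  have hσG0 : gm (fun _ => (σ : ℚ)) ≠ 0 := hne (fun _ => σ) fun _ => hσne
  set gT : Fin s → ℝ := Pi.single v2 (1 / Real.log 2) with hgT
  have hT : IsCh B0 hL (gm fun n => (σ : ℚ) * (2 : ℚ) ^ e n) gT := by
    have h1 := isCh_root B0 v2 hP2 het (le_refl 1)
    have h2 : ((1 : ℕ) : ℝ) * Real.log 2 = Real.log 2 := by push_cast; ring
    rw [h2] at h1
    simp only [Nat.div_one] at h1
    have h3 := (IsCh.const (B0 := B0) (hL := hL) hσK hσG0).mul h1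
    rw [zero_add, gm_mul] at h3
    exact h3
  set T : GG := gm fun n => (σ : ℚ) * (2 : ℚ) ^ e n with hTdef
  have hT0 : T ≠ 0 := gm_ne_zero.2 (Eventually.of_forall fun n =>
    mul_ne_zero (by exact_mod_cast hσne) (by positivity))
  have hAA : gm (fun _ => (σ : ℚ)) * (A * A') = T + 1 := by
    rw [hA, hA', hTdef, gm_mul, gm_mul, ← gm_one, gm_add]
    congr 1
    funext n
    have h1 : (((a n : ℤ) * a' n : ℤ) : ℚ) = ((2 ^ e n + σ : ℤ) : ℚ) := by rw [haa n]
    have h2 : (σ : ℚ) * σ = 1 := by exact_mod_cast hσ2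
    push_cast at h1 ⊢
    rw [h1, mul_add, h2]
  set z : GG := -(cU * A) * dV⁻¹ with hz
  set z' : GG := -(gm (fun _ => (σ : ℚ)) * (dV * cU⁻¹) * A' * T⁻¹) with hz'
  have hrelz : T * z * z' = T + 1 := by
    rw [← hAA, hz, hz']
    field_simp
  have hzg : z = gm (fun n => (a n : ℚ) / (((-d n : ℤ) : ℚ) / c n * ((V n : ℚ) / U n))) := by
    rw [hz, hcUdef, hdVdef, hA, gm_mul, gm_mul, gm_mul, gm_inv, gm_neg, gm_mul]
    congr 1
    funext n
    have h1 : (c n : ℚ) ≠ 0 := by exact_mod_cast hc0 n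
    have h2 : (d n : ℚ) ≠ 0 := by exact_mod_cast hd0 n
    have h3 : (U n : ℚ) ≠ 0 := by exact_mod_cast hU0 n
    have h4 : (V n : ℚ) ≠ 0 := by exact_mod_cast hV0 n
    push_cast
    field_simp
  -- the weights
  set ζ : Option (Fin s) → ℝ := fun v => ξ2 v - ξ1 v with hζ
  set τ : Option (Fin s) → ℝ := fun v => lv B0 v gT with hτ
  set ϑ : Option (Fin s) → ℝ := fun v => v.elim 0 (fun i => τ (some i)) with hϑ
  have hτn : τ none = -1 := by
    change -∑ i, (Pi.single v2 (1 / Real.log 2) : Fin s → ℝ) i * Real.log (B0.P i) = -1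
    rw [Finset.sum_eq_single v2]
    · rw [Pi.single_eq_same, hP2]
      push_cast
      field_simp
    · intro i _ hi
      rw [Pi.single_eq_of_ne hi, zero_mul]
    · intro h
      exact absurd (Finset.mem_univ _) h
  have hτs : ∑ v, τ v = 0 := lv_sum (B := B0) gT
  have hϑs : ∑ v, ϑ v = 1 := by
    rw [Fintype.sum_option]
    rw [Fintype.sum_option, hτn] at hτs
    change 0 + ∑ i, τ (some i) = 1
    linarith
  have hξAs : ∑ v, ξA v = -x := by
    rw [Fintype.sum_option]
    change -x + ∑ i : Fin s, (0 : ℝ) = -x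
    simp
  have hζs : ∑ v, ζ v = x := by
    rw [hζ]
    simp only []
    rw [Finset.sum_sub_distrib, hξ2, hξ1]
    simp only []
    rw [Finset.sum_add_distrib, lv_sum, lv_sum, hξAs]
    ring
  have hnegm : ∀ (v : Option (Fin s)) {g : GG} {t : ℝ}, g ∈ Sv B0 L v t → -g ∈ Sv B0 L v t := by
    intro v g t hg
    have h1 := (hF v).mul_mem ((hF v).alg_mem (-1)) hg
    have h2 : algebraMap (KK L hL) GG (-1) = -1 := by simp
    rw [h2, zero_add, neg_one_mul] at h1
    exact h1
  have hnegs : ∀ {g : GG}, Sint B0 L g → Sint B0 L (-g) := by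
    intro g hg
    have h1 := Sint.mul hL (Sint.alg (B := B0) hL (-1)) hg
    simpa using h1
  have hzm : ∀ v, z ∈ Sv B0 L v (-ζ v) := by
    intro v
    have h1 := (hF v).mul_mem (hnegm v (hX v)) (hY' v)
    refine (hF v).anti (le_of_eq ?_) h1
    rw [hζ]
    ring
  have hσm : ∀ v, gm (fun _ => (σ : ℚ)) ∈ Sv B0 L v 0 := fun v =>
    (hF v).alg_mem (⟨_, hσK⟩ : KK L hL)
  have hA'm : ∀ v, A' ∈ Sv B0 L v ((v : Option (Fin s)).elim (-(1 - x)) (fun _ => 0)) := by
    rintro (_ | v)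
    · exact hAr'.1
    · exact int_fin B0 hL (fun n => (a' n : ℤ)) v
  have hzm' : ∀ v, z' ∈ Sv B0 L v (ζ v - ϑ v) := by
    intro v
    have h2 : cU⁻¹ ∈ Sv B0 L v (-lv B0 v gU) := by
      have := hcU.inv.mem v
      rwa [lv_neg] at this
    have h3 : T⁻¹ ∈ Sv B0 L v (-τ v) := by
      have := hT.inv.mem v
      rwa [lv_neg] at this
    have h1 := hnegm v ((hF v).mul_mem ((hF v).mul_mem ((hF v).mul_mem (hσm v)
      ((hF v).mul_mem (hdV.mem v) h2)) (hA'm v)) h3)
    refine (hF v).anti (le_of_eq ?_) h1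
    rcases v with _ | v
    · change (lv B0 none gV - (lv B0 none gU + -x)) - 0 =
        0 + (lv B0 none gV + -lv B0 none gU) + -(1 - x) + -τ none
      rw [hτn]
      ring
    · change (lv B0 (some v) gV - (lv B0 (some v) gU + 0)) - τ (some v) =
        0 + (lv B0 (some v) gV + -lv B0 (some v) gU) + 0 + -τ (some v)
      ring
  have hAs : Sint B0 L A := int_sint B0 hL (fun n => (a n : ℤ))
  have hAs' : Sint B0 L A' := int_sint B0 hL (fun n => (a' n : ℤ))
  have hzs : Sint B0 L z := Sint.mul hL (hnegs (Sint.mul hL hcU.sint hAs)) hdV.inv.sint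
  have hzs' : Sint B0 L z' := hnegs (Sint.mul hL (Sint.mul hL (Sint.mul hL
    (Sint.alg hL (⟨_, hσK⟩ : KK L hL)) (Sint.mul hL hdV.sint hcU.inv.sint)) hAs') hT.inv.sint)
  -- the distances
  set κ : Option (Fin s) → ℝ := fun v => if ζ v = 0 then max 0 (ξ3 v - ξ2 v) else 0 with hκ
  have hκ0 : ∀ v, 0 ≤ κ v := by
    intro v
    rw [hκ]
    simp only []
    split_ifs
    · exact le_max_left _ _
    · exact le_rfl
  have hκge : ∀ v, ξ3 v - min (ξ1 v) (ξ2 v) ≤ κ v := by
    intro v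
    rw [hκ]
    simp only []
    split_ifs with h0
    · have h1 : ξ1 v = ξ2 v := by
        change ξ2 v - ξ1 v = 0 at h0
        linarith
      rw [h1, min_self]
      exact le_max_right _ _
    · have h1 : ξ1 v ≠ ξ2 v := by
        intro h1
        apply h0
        change ξ2 v - ξ1 v = 0
        linarith
      have h2 := three B0 hL hXYW (hX v) (hX' v) hX0 (hdV.mem v) (hY' v) hdV0 (hW v) h1
      linarith
  have hξks : ∑ v, ξk v = -θ := by
    rw [Fintype.sum_option]
    change -θ + ∑ i : Fin s, (0 : ℝ) = -θ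
    simp
  have hκs : x * (1 - x) < ∑ v, κ v := by
    have h1 : ∑ v, (ξ3 v - min (ξ1 v) (ξ2 v)) ≤ ∑ v, κ v := Finset.sum_le_sum fun v _ => hκge v
    have h2 : ∑ v, ξ3 v = -θ := by
      rw [hξ3]
      simp only []
      rw [Finset.sum_add_distrib, lv_sum, add_zero, hξks]
    have h3 : ∑ v, min (ξ1 v) (ξ2 v) ≤ min (ξ1 none) (ξ2 none) := by
      rw [Fintype.sum_option]
      have : ∑ v : Fin s, min (ξ1 (some v)) (ξ2 (some v)) ≤ 0 :=
        Finset.sum_nonpos fun v _ => hmin v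
      linarith
    rw [Finset.sum_sub_distrib, h2] at h1
    rw [hθ] at h1
    linarith
  have hclose : ∀ v, 0 < κ v → ζ v = 0 ∧ z - 1 ∈ Sv B0 L v (κ v) := by
    intro v hv
    rw [hκ] at hv ⊢
    simp only [] at hv ⊢
    split_ifs at hv ⊢ with h0
    · refine ⟨h0, ?_⟩
      have h1 : z - 1 = -(Gk * GS) * dV⁻¹ := by
        rw [← hXYW, hz]
        field_simp
        ring
      have h2 := (hF v).mul_mem (hnegm v (hW v)) (hY' v)
      rw [← h1] at h2
      have h3 : max 0 (ξ3 v - ξ2 v) = ξ3 v + -ξ2 v := by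
        rw [← sub_eq_add_neg]
        apply max_eq_right
        by_contra h4
        push Not at h4
        rw [max_eq_left h4.le] at hv
        exact lt_irrefl _ hv
      rw [h3]
      exact h2
    · exact absurd hv (lt_irrefl _)
  by_cases hno : ∀ R : Polynomial (Polynomial ℤ), R ≠ 0 → evG T z R ≠ 0
  · exact transQ B0 hL hrelz τ ζ ϑ κ hτs hϑs (fun v => hT.mem v) hzm hzm' hT.sint hzs hzs' hζs
      hx0 hx1 hκ0 hκs hclose hno
  · push Not at hno
    obtain ⟨R, hR, hRz⟩ := hno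
    rw [hzg, hTdef] at hRz
    have hWK := fun n => height_le (V n) (U n) (hU0 n) (hV0 n) ((V n : ℚ) / U n) rfl
    exact alg_false hE b hb hbi v2 hv2 het heE (fun n => -d n) c (fun n => neg_ne_zero.2 (hd0 n))
      hc0 hd.neg hc (fun n => (V n : ℚ) / U n) (fun n => by
        rw [div_eq_mul_inv]
        exact FG.isSU_mul hb (hV n) (FG.isSU_inv (hU n)))
      (fun n => (hWK n).1.trans (hVK n)) (fun n => (hWK n).2.1.trans (hUK n)) a a' haa hε ha ha'
      R hR hRz

end Pool.Agent.H556.DV
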