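import Mathlib
import Pool.Agent.H556.DV.Near

/-!
# Divisors of `2 ^ e + σ` and linear forms with `S`-unit coefficients
-/

set_option autoImplicit false

namespace Pool.Agent.H556.DV

open Filter Topology Pool.Agent.TH932.Abs Pool.Agent.TH932.Germs Pool.Agent.TH932.Chi
open Pool.Agent.TH796.AL Pool.Agent.TH551.SU Pool.Agent.Y724.Vj Pool.Agent.H556.CP
open Pool.Agent.H556.RT (LT LT_tendsto LT_nonneg exp_LT)

/-- small integers along a sequence -/
lemma negl_of {e : ℕ → ℕ} (x : ℕ → ℤ)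
    (hx : ∀ n, |(x n : ℝ)| ≤ Real.exp (1 / ((n : ℝ) + 1) * lt (e n))) : Negl (LT e) x := by
  intro δ hδ
  obtain ⟨N, hN⟩ := exists_nat_gt (1 / δ)
  filter_upwards [ev_of_atTop (eventually_ge_atTop N)] with n hn
  refine (hx n).trans (Real.exp_le_exp.2 ?_)
  apply mul_le_mul_of_nonneg_right _ (lt_nonneg _)
  have hN' : (N : ℝ) ≤ n := by exact_mod_cast hn
  rw [div_le_iff₀ (by positivity)]
  rw [div_lt_iff₀ hδ] at hN
  nlinarith

/-- **`S`-free parts of linear forms in a divisor of `2 ^ e + σ` and `1`** -/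
theorem near {σ : ℤ} {E : Set ℕ} (hE : Adm σ E) (S : Finset ℕ) (K ε : ℝ) (hε : 0 < ε) :
    ∃ η : ℝ, 0 < η ∧ ∃ e₀ : ℕ, ∀ e ∈ E, e₀ ≤ e → ∀ a a' : ℕ, (a : ℤ) * a' = 2 ^ e + σ →
      Real.exp (ε * lt e) ≤ a → Real.exp (ε * lt e) ≤ a' →
      ∀ c d u v k s : ℤ, c ≠ 0 → d ≠ 0 → |(c : ℝ)| ≤ Real.exp (η * lt e) →
      |(d : ℝ)| ≤ Real.exp (η * lt e) → u ≠ 0 → v ≠ 0 → s ≠ 0 →
      (∀ p : ℕ, p.Prime → (p : ℤ) ∣ u * v * s → p ∈ S) → IsCoprime u v →
      |(u : ℝ)| ≤ Real.exp (K * lt e) → |(v : ℝ)| ≤ Real.exp (K * lt e) →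
      c * u * a + d * v = k * s →
      max (|(u : ℝ)| * a) |(v : ℝ)| *
        Real.exp (-(Real.log a * Real.log a' / lt e) - ε * lt e) < |(k : ℝ)| := by
  classical
  by_contra hcon
  push Not at hcon
  obtain ⟨s0, b, v2, hb, hbi, hv2, hbs⟩ := exists_base S
  obtain ⟨e1, he1⟩ := hE.cop_all b hb
  choose e heE hem a a' haa ha ha' c d u v k s hc0 hd0 hc hd hu0 hv0 hs0 hp huv huK hvK hrel hk
    using fun n : ℕ => hcon (1 / ((n : ℝ) + 1)) (by positivity) (n + 1 + e1)
  have het : Tendsto e atTop atTop :=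
    tendsto_atTop_mono (fun n => ((Nat.le_add_right n (1 + e1)).trans (by have := hem n; omega)))
      tendsto_id
  have hsu : ∀ n (x : ℤ), x ≠ 0 → x ∣ u n * v n * s n → IsSU b (x : ℚ) := by
    intro n x hx hd
    refine FG.isSU_of b hb _ (by exact_mod_cast hx) (fun p hp' hpd => ?_) hbi
    refine hbs p (hp n p hp' ?_) hp'
    rw [Rat.num_intCast, Rat.den_intCast] at hpd
    rcases hpd with h1 | h1
    · exact (Int.natCast_dvd.2 h1).trans hd
    · exact absurd (Nat.dvd_one.1 h1) hp'.ne_one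
  exact coreN hE b hb hbi v2 hv2 het heE (fun n => by have := hem n; omega)
    (fun n v => he1 _ (heE n) (by have := hem n; omega) v) c d u v s k hc0 hd0
    (negl_of c hc) (negl_of d hd)
    (fun n => hsu n _ (hu0 n) (Dvd.dvd.mul_right (Dvd.intro _ rfl) _))
    (fun n => hsu n _ (hv0 n) (Dvd.dvd.mul_right (Dvd.intro_left _ rfl) _))
    (fun n => hsu n _ (hs0 n) (Dvd.intro_left _ rfl)) huv huK hvK a a' haa hε ha ha' hrel hk

/-- the Fermat numbers -/
lemma adm_fermat : Adm 1 {e | ∃ m : ℕ, e = 2 ^ m} where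
  sg := Or.inl rfl
  pr := by
    intro l hl h2
    refine ⟨0, ?_⟩
    rintro _ ⟨m, rfl⟩ - h
    exact h2 rfl ((Nat.prime_dvd_prime_iff_eq hl Nat.prime_two).1 (hl.dvd_of_dvd_pow h))
  four := by
    intro _
    refine ⟨4, ?_⟩
    rintro _ ⟨m, rfl⟩ h4 h
    have hm : 2 ≤ m := by
      by_contra hcon
      push Not at hcon
      interval_cases m <;> omega
    obtain ⟨w, hw⟩ := Nat.exists_eq_add_of_le hm
    rw [hw, pow_add] at h
    norm_num at h
    omega
  cop := by
    intro l hl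
    refine ⟨2 ^ (l + 2), ?_⟩
    rintro _ ⟨m, rfl⟩ hm h
    have hlm : l + 2 ≤ m := (Nat.pow_le_pow_iff_right (by norm_num)).1 hm
    have h1 : (l : ℤ) ∣ ((Nat.fermatNumber m : ℕ) : ℤ) := by
      unfold Nat.fermatNumber
      push_cast
      exact h
    have h2 : l ∣ Nat.fermatNumber m := by exact_mod_cast h1
    have h3 := FG.coprime_fermat (m := m) (by omega) hl (by omega)
    exact (hl.coprime_iff_not_dvd.1 h3.symm) h2

/-- the Mersenne numbers -/
lemma adm_mersenne : Adm (-1) {e | e.Prime} where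
  sg := Or.inr rfl
  pr := by
    intro l hl _
    refine ⟨l + 1, ?_⟩
    intro e he hle h
    have := (Nat.prime_dvd_prime_iff_eq hl he).1 h
    omega
  four := by
    intro h
    norm_num at h
  cop := by
    intro l hl
    refine ⟨l + 1, ?_⟩
    intro e he hle h
    have he' : e.Prime := he
    have hF := Fact.mk hl
    -- the order of 2 modulo `l` is `e`
    have h1 : ((2 : ZMod l)) ^ e = 1 := by
      have h2 : (((2 ^ e + -1 : ℤ)) : ZMod l) = 0 := (ZMod.intCast_zmod_eq_zero_iff_dvd _ _).2 h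
      push_cast at h2
      linear_combination h2
    have hl2 : (2 : ZMod l) ≠ 0 := by
      intro h0
      rw [h0, zero_pow he'.ne_zero] at h1
      exact zero_ne_one h1
    have h3 : (2 : ZMod l) ^ (l - 1) = 1 := ZMod.pow_card_sub_one_eq_one hl2
    have h4 := orderOf_dvd_of_pow_eq_one h1
    have h5 := orderOf_dvd_of_pow_eq_one h3
    rcases (Nat.dvd_prime he').1 h4 with h6 | h6
    · rw [orderOf_eq_one_iff] at h6
      have h7 : ((1 : ℕ) : ZMod l) = 0 := by
        push_cast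
        linear_combination h6
      rw [ZMod.natCast_eq_zero_iff] at h7
      exact hl.one_lt.ne' (Nat.dvd_one.1 h7)
    · rw [h6] at h5
      have h7 := Nat.le_of_dvd (by have := hl.two_le; omega) h5
      omega

open Nat (fermatNumber) in
/-- the theorem for Fermat numbers -/
theorem near_fermat (S : Finset ℕ) (K ε : ℝ) (hε : 0 < ε) :
    ∃ η : ℝ, 0 < η ∧ ∃ m₀ : ℕ, ∀ m ≥ m₀, ∀ a a' : ℕ, a * a' = fermatNumber m →
      (fermatNumber m : ℝ) ^ ε ≤ a → (fermatNumber m : ℝ) ^ ε ≤ a' →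
      ∀ c d u v k s : ℤ, c ≠ 0 → d ≠ 0 → |(c : ℝ)| ≤ (fermatNumber m : ℝ) ^ η →
      |(d : ℝ)| ≤ (fermatNumber m : ℝ) ^ η → u ≠ 0 → v ≠ 0 → s ≠ 0 →
      (∀ p : ℕ, p.Prime → (p : ℤ) ∣ u * v * s → p ∈ S) → IsCoprime u v →
      |(u : ℝ)| ≤ (fermatNumber m : ℝ) ^ K → |(v : ℝ)| ≤ (fermatNumber m : ℝ) ^ K →
      c * u * a + d * v = k * s →
      max (|(u : ℝ)| * a) |(v : ℝ)| * (fermatNumber m : ℝ) ^
        (-(Real.log a / Real.log (fermatNumber m) * (1 - Real.log a / Real.log (fermatNumber m)))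
          - ε) < |(k : ℝ)| := by
  obtain ⟨η, hη, e₀, h⟩ := near adm_fermat S (2 * |K|) (ε / 2) (by positivity)
  obtain ⟨L0, hL0⟩ := exists_nat_gt (4 / ε + 1)
  refine ⟨η / 2, by positivity, e₀ + 2 * L0, ?_⟩
  intro m hm a a' haa ha ha' c d u v k s hc0 hd0 hc hd hu0 hv0 hs0 hp huv hu hv hrel
  set F : ℝ := (fermatNumber m : ℝ) with hF
  set L : ℝ := lt (2 ^ m) with hL
  have hme : m < 2 ^ m := Nat.lt_two_pow_self
  have hFL : F = Real.exp L + 1 := by
    have h1 : Real.exp L = 2 ^ (2 ^ m) := exp_LT (fun n => n) (2 ^ m)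
    rw [h1, hF]
    unfold fermatNumber
    push_cast
    rfl
  have hlog2 : (1 : ℝ) / 2 ≤ Real.log 2 := by
    have := Real.log_two_gt_d9
    linarith
  have hLm : (m : ℝ) / 2 ≤ L := by
    change (m : ℝ) / 2 ≤ ((2 ^ m : ℕ) : ℝ) * Real.log 2
    have h1 : (m : ℝ) ≤ ((2 ^ m : ℕ) : ℝ) := by exact_mod_cast hme.le
    have h2 : (0 : ℝ) ≤ m := Nat.cast_nonneg _
    nlinarith
  have hmL0 : (2 * L0 : ℝ) ≤ m := by
    have : 2 * L0 ≤ m := by omega
    exact_mod_cast this
  have hL0L : (L0 : ℝ) ≤ L := by linarith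
  have h2ε : 0 < 4 / ε := by positivity
  have hL1 : 1 ≤ L := by linarith
  have hεL : 4 ≤ ε * L := by
    have h1 : 4 / ε ≤ L := by linarith
    rw [div_le_iff₀ hε] at h1
    linarith
  have hexp1 : 1 ≤ Real.exp L := Real.one_le_exp (by linarith)
  have hF1 : 1 < F := by rw [hFL]; linarith
  have hF0 : 0 < F := by linarith
  have hlogF1 : L ≤ Real.log F := by
    rw [Real.le_log_iff_exp_le hF0, hFL]
    linarith
  have hlogF2 : Real.log F ≤ L + 1 := by
    rw [Real.log_le_iff_le_exp hF0, Real.exp_add, hFL]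
    have h2 : (2 : ℝ) ≤ Real.exp 1 := by
      have := Real.add_one_le_exp (1 : ℝ)
      linarith
    nlinarith
  have hlF : 0 < Real.log F := by linarith
  have hpowle : ∀ t : ℝ, 0 ≤ t → F ^ t ≤ Real.exp (2 * t * L) := by
    intro t ht
    rw [Real.rpow_def_of_pos hF0]
    apply Real.exp_le_exp.2
    nlinarith
  have hgeε : ∀ x : ℝ, F ^ ε ≤ x → Real.exp (ε / 2 * L) ≤ x := by
    intro x hx
    refine le_trans ?_ hx
    rw [Real.rpow_def_of_pos hF0]
    apply Real.exp_le_exp.2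
    nlinarith
  have hKle : ∀ x : ℝ, x ≤ F ^ K → x ≤ Real.exp (2 * |K| * L) := by
    intro x hx
    refine hx.trans ((Real.rpow_le_rpow_of_exponent_le hF1.le (le_abs_self K)).trans ?_)
    exact hpowle _ (abs_nonneg K)
  have haaR : (a : ℝ) * a' = F := by
    rw [hF, ← haa]
    push_cast
    rfl
  have h1F : (1 : ℝ) ≤ F ^ ε := Real.one_le_rpow hF1.le hε.le
  have ha0 : (0 : ℝ) < a := by linarith
  have ha0' : (0 : ℝ) < a' := by linarith
  have hlogs : Real.log a + Real.log a' = Real.log F := by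
    rw [← Real.log_mul ha0.ne' ha0'.ne', haaR]
  have hla : 0 ≤ Real.log a := Real.log_nonneg (by linarith)
  have hla' : 0 ≤ Real.log a' := Real.log_nonneg (by linarith)
  have key := h (2 ^ m) ⟨m, rfl⟩ (by omega) a a' (by
      have h1 : ((a * a' : ℕ) : ℤ) = ((fermatNumber m : ℕ) : ℤ) := by rw [haa]
      unfold fermatNumber at h1
      push_cast at h1 ⊢
      exact h1) (hgeε _ ha) (hgeε _ ha') c d u v k s hc0 hd0 ?_ ?_ hu0 hv0 hs0 hp huv
      (hKle _ hu) (hKle _ hv) hrel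
  · refine lt_of_le_of_lt ?_ key
    apply mul_le_mul_of_nonneg_left _ (le_max_of_le_right (abs_nonneg _))
    rw [Real.rpow_def_of_pos hF0]
    apply Real.exp_le_exp.2
    have e1 : Real.log F * (-(Real.log a / Real.log F * (1 - Real.log a / Real.log F)) - ε) =
        -(Real.log a * Real.log a' / Real.log F) - ε * Real.log F := by
      have : Real.log a' = Real.log F - Real.log a := by linarith
      rw [this]
      field_simp
    rw [e1]
    have e2 : Real.log a * Real.log a' / L ≤ Real.log a * Real.log a' / Real.log F + 2 := by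
      rw [div_add' _ _ _ hlF.ne', div_le_div_iff₀ (by linarith) hlF]
      have e3 : Real.log a * Real.log a' ≤ Real.log F * Real.log F := by
        apply mul_le_mul <;> linarith
      nlinarith
    have e4 : ε / 2 * L + 2 ≤ ε * Real.log F := by nlinarith
    change _ ≤ -(Real.log a * Real.log a' / L) - ε / 2 * L
    linarith
  · refine hc.trans ((hpowle _ (by positivity)).trans (le_of_eq ?_))
    congr 1
    ring
  · refine hd.trans ((hpowle _ (by positivity)).trans (le_of_eq ?_))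
    congr 1
    ring

end Pool.Agent.H556.DV
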